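import Pool.Agent.Work.MP_33c03a_lc.G.Stmts
import Pool.Agent.Work.MP_33c03a_lc.I_Nul
import Pool.Agent.Work.MP_33c03a_lc.I_Sig
import Pool.Agent.Work.MP_33c03a_lc.I_Fst
import Pool.Agent.Work.MP_33c03a_lc.I_W1

/-!
Block G (MP_33c03a_lc), item Bd: bounding in the full case.
-/

open Set

namespace MP33c03aG

open MP33c03aR

universe u

namespace XBd

theorem sig {B : Type u} [CompleteBooleanAlgebra B] (h : Set W1 → B) (H : NH h)
    (A : ℕ → Set W1) : h (⋃ n, A n) = ⨆ n, h (A n) :=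
  pr_Sig pr_Nul pr_Fst W1 B h pr_W1 H A

end XBd

theorem prfBd (hDm : StDm.{u}) : StBd.{u} := by
  classical
  intro hPG B _ h H hF f hf B0 hS x hx a ha
  obtain ⟨-, mono, -⟩ := pr_Nul W1 B h H
  obtain ⟨a1, ha1, ha1n, A, hA⟩ := hF (fun i => x i.unpair.1 i.unpair.2) a ha
  have hA' : ∀ n m, a1 ⊓ x n m = a1 ⊓ h (A (Nat.pair n m)) := by
    intro n m
    have := hA (Nat.pair n m)
    simpa using this
  obtain ⟨F, hFd⟩ : ∃ F : W1 → ℕ → ℕ, ∀ d n, (∃ m, d ∈ A (Nat.pair n m)) →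
      d ∈ A (Nat.pair n (F d n)) := by
    refine ⟨fun d n => if hh : ∃ m, d ∈ A (Nat.pair n m) then hh.choose else 0, ?_⟩
    intro d n hh
    simp only [dif_pos hh]
    exact hh.choose_spec
  obtain ⟨z, hz1, hz2⟩ := hDm hPG B h H f hf B0 hS F
  have hu : {d | ∃ k, ∀ n ≥ k, F d n ≤ z d n} = ⋃ k, {d | ∀ n ≥ k, F d n ≤ z d n} := by
    ext d
    simp only [mem_iUnion, mem_ofPred_eq]
  rw [hu, XBd.sig h H] at hz2
  obtain ⟨k, hk⟩ : ∃ k, a1 ⊓ h {d | ∀ n ≥ k, F d n ≤ z d n} ≠ ⊥ := by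
    by_contra hcon
    push Not at hcon
    apply ha1n
    rw [← inf_top_eq a1, ← hz2, inf_iSup_eq]
    simp only [hcon, iSup_bot]
  refine ⟨a1 ⊓ h {d | ∀ n ≥ k, F d n ≤ z d n}, inf_le_left.trans ha1, hk, z, hz1, k, ?_⟩
  intro n hn
  have h1 : a1 ≤ h (⋃ m, A (Nat.pair n m)) := by
    calc a1 = a1 ⊓ ⨆ m, x n m := by rw [hx n, inf_top_eq]
      _ = ⨆ m, a1 ⊓ h (A (Nat.pair n m)) := by
          rw [inf_iSup_eq]
          exact iSup_congr fun m => hA' n m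
      _ ≤ ⨆ m, h (A (Nat.pair n m)) := iSup_mono fun m => inf_le_right
      _ = h (⋃ m, A (Nat.pair n m)) := (XBd.sig h H _).symm
  have h2 : a1 ⊓ h {d | ∀ n ≥ k, F d n ≤ z d n} ≤
      ⨆ m, h (A (Nat.pair n m)) ⊓ h {d | m ≤ z d n} := by
    calc a1 ⊓ h {d | ∀ n ≥ k, F d n ≤ z d n} ≤
        h (⋃ m, A (Nat.pair n m)) ⊓ h {d | ∀ n ≥ k, F d n ≤ z d n} := inf_le_inf_right _ h1
      _ = h ((⋃ m, A (Nat.pair n m)) ∩ {d | ∀ n ≥ k, F d n ≤ z d n}) := (H.inter _ _).symm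
      _ ≤ h (⋃ m, (A (Nat.pair n m) ∩ {d | m ≤ z d n})) := by
          refine mono _ _ ?_
          rintro d ⟨hd1, hd2⟩
          obtain ⟨m, hm⟩ := mem_iUnion.mp hd1
          refine mem_iUnion.mpr ⟨F d n, hFd d n ⟨m, hm⟩, hd2 n hn⟩
      _ = ⨆ m, h (A (Nat.pair n m)) ⊓ h {d | m ≤ z d n} := by
          rw [XBd.sig h H]
          exact iSup_congr fun m => H.inter _ _
  calc a1 ⊓ h {d | ∀ n ≥ k, F d n ≤ z d n} ≤
      a1 ⊓ ⨆ m, h (A (Nat.pair n m)) ⊓ h {d | m ≤ z d n} := le_inf inf_le_left h2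
    _ = ⨆ m, a1 ⊓ (h (A (Nat.pair n m)) ⊓ h {d | m ≤ z d n}) := inf_iSup_eq _ _
    _ ≤ ⨆ m, x n m ⊓ h {d | m ≤ z d n} := by
        refine iSup_mono fun m => ?_
        rw [← inf_assoc, ← hA' n m]
        exact inf_le_inf_right _ inf_le_right

end MP33c03aG
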