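import Pool.Agent.Work.MP_33c03a_lc.G.Stmts
import Pool.Agent.Work.MP_33c03a_lc.I_Nul
import Pool.Agent.Work.MP_33c03a_lc.I_Sig
import Pool.Agent.Work.MP_33c03a_lc.I_Fst
import Pool.Agent.Work.MP_33c03a_lc.I_W1

/-!
Block G (MP_33c03a_lc), item Co: no Cohen reals.
-/

open Set

namespace MP33c03aG

open MP33c03aR

universe u

namespace XCo

section

variable {B : Type u} [CompleteBooleanAlgebra B] {h : Set W1 → B}

/-- Countable intersections. -/
theorem inter (H : NH h) (A : ℕ → Set W1) : h (⋂ n, A n) = ⨅ n, h (A n) := by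
  have e : (⋂ n, A n) = (⋃ n, (A n)ᶜ)ᶜ := by
    rw [compl_iUnion]
    simp only [compl_compl]
  rw [e, H.compl, pr_Sig pr_Nul pr_Fst W1 B h pr_W1 H, compl_iSup]
  congr 1
  funext n
  rw [H.compl, compl_compl]

theorem mono (H : NH h) {A A' : Set W1} (hs : A ⊆ A') : h A ≤ h A' :=
  (pr_Nul W1 B h H).2.1 A A' hs

theorem inf_compl {a x y : B} (e : a ⊓ x = a ⊓ y) : a ⊓ xᶜ = a ⊓ yᶜ := by
  have h1 : ∀ z : B, a ⊓ zᶜ = a \ (a ⊓ z) := fun z => by
    rw [sdiff_inf_self_left, _root_.sdiff_eq]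
  rw [h1, h1, e]

/-- The set of all `d` for which `t` is an initial segment of the real of `d`. -/
def J (A : ℕ → Set W1) (t : List Bool) (n : ℕ) : Set W1 :=
  {d | (t[n]? = some true → d ∈ A n) ∧ (t[n]? = some false → d ∉ A n)}

theorem ini_le (H : NH h) {a : B} {c : ℕ → B} {A : ℕ → Set W1}
    (hA : ∀ n, a ⊓ c n = a ⊓ h (A n)) (t : List Bool) : a ⊓ Ini c t ≤ h (⋂ n, J A t n) := by
  rw [inter H]
  refine le_iInf fun n => ?_
  by_cases hn : n < t.length
  · have h1 : Ini c t ≤ if t.get ⟨n, hn⟩ then c n else (c n)ᶜ :=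
      iInf_le (fun i : Fin t.length => if t.get i then c i else (c i)ᶜ) ⟨n, hn⟩
    have h2 : t[n]? = some (t.get ⟨n, hn⟩) := by
      rw [List.get_eq_getElem]
      exact List.getElem?_eq_getElem hn
    cases hb : t.get ⟨n, hn⟩ with
    | true =>
      rw [hb] at h1 h2
      rw [if_pos rfl] at h1
      have h3 : A n ⊆ J A t n := by
        intro d hd
        refine ⟨fun _ => hd, fun h4 => ?_⟩
        rw [h2] at h4
        exact absurd (Option.some.inj h4) (by decide)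
      calc a ⊓ Ini c t ≤ a ⊓ c n := inf_le_inf_left a h1
        _ = a ⊓ h (A n) := hA n
        _ ≤ h (A n) := inf_le_right
        _ ≤ h (J A t n) := mono H h3
    | false =>
      rw [hb] at h1 h2
      rw [if_neg (by decide)] at h1
      have h3 : (A n)ᶜ ⊆ J A t n := by
        intro d hd
        refine ⟨fun h4 => ?_, fun _ => hd⟩
        rw [h2] at h4
        exact absurd (Option.some.inj h4) (by decide)
      calc a ⊓ Ini c t ≤ a ⊓ (c n)ᶜ := inf_le_inf_left a h1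
        _ = a ⊓ (h (A n))ᶜ := inf_compl (hA n)
        _ ≤ (h (A n))ᶜ := inf_le_right
        _ = h (A n)ᶜ := (H.compl _).symm
        _ ≤ h (J A t n) := mono H h3
  · have h1 : t[n]? = none := List.getElem?_eq_none (not_lt.1 hn)
    have h2 : J A t n = univ := by
      ext d
      refine ⟨fun _ => mem_univ d, fun _ => ⟨fun h3 => ?_, fun h3 => ?_⟩⟩
      · rw [h1] at h3
        exact absurd h3 (by simp)
      · rw [h1] at h3
        exact absurd h3 (by simp)
    rw [h2, H.top]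
    exact le_top

/-- If every piece is below `h X`, then so is `a`. -/
theorem le_of_cover (H : NH h) {a a' : B} {c : ℕ → B} {A : ℕ → Set W1} (ha : a' ≤ a)
    (hA : ∀ n, a' ⊓ c n = a' ⊓ h (A n)) (U : List Bool → B) (hU : a ≤ ⨆ t, U t ⊓ Ini c t)
    (X : Set W1) (hX : ∀ t, U t ⊓ h (⋂ n, J A t n) ≤ h X) : a' ≤ h X := by
  have h1 : a' ≤ a' ⊓ ⨆ t, U t ⊓ Ini c t := le_inf le_rfl (ha.trans hU)
  refine h1.trans ?_
  rw [inf_iSup_eq]
  refine iSup_le fun t => ?_
  have h2 : a' ⊓ (U t ⊓ Ini c t) = U t ⊓ (a' ⊓ Ini c t) := by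
    rw [inf_left_comm]
  rw [h2]
  exact (inf_le_inf_left _ (ini_le H hA t)).trans (hX t)

end

open scoped Classical in
/-- The least element of the real of `d` at or above `n`. -/
noncomputable def Fn (A : ℕ → Set W1) (d : W1) (n : ℕ) : ℕ :=
  if hx : ∃ m, n ≤ m ∧ d ∈ A m then Nat.find hx else n

theorem Fn_le (A : ℕ → Set W1) (d : W1) (n : ℕ) : n ≤ Fn A d n := by
  classical
  unfold Fn
  split_ifs with hx
  · exact (Nat.find_spec hx).1
  · exact le_rfl

theorem Fn_mem (A : ℕ → Set W1) (d : W1) (n m : ℕ) (hm : n ≤ m) (hd : d ∈ A m) :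
    d ∈ A (Fn A d n) := by
  classical
  unfold Fn
  have hx : ∃ m, n ≤ m ∧ d ∈ A m := ⟨m, hm, hd⟩
  rw [dif_pos hx]
  exact (Nat.find_spec hx).2

end XCo

theorem prfCo : StDm.{u} → StUn.{u} → StCo.{u} := by
  classical
  intro hDm hUn hPG B _ h H hFull f hf B0 hSub c a hC
  by_contra hane
  obtain ⟨a', ha', ha'ne, A, hA⟩ := hFull c a hane
  apply ha'ne
  obtain ⟨z, hz1, hz2⟩ := hDm hPG B h H f hf B0 hSub (XCo.Fn A)
  have hz3 : h {d | ∃ k, ∀ n ≥ k, n ≤ z d n} = ⊤ := by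
    rw [eq_top_iff, ← hz2]
    apply XCo.mono H
    rintro d ⟨k, hk⟩
    exact ⟨k, fun n hn => (XCo.Fn_le A d n).trans (hk n hn)⟩
  have hbot : (⊥ : B) ∈ B0 := by
    rw [← sSup_empty]
    exact hSub.sup ∅ (empty_subset _)
  have htop : (⊤ : B) ∈ B0 := by
    rw [← compl_bot]
    exact hSub.compl _ hbot
  -- the two families of sets
  have hE : ∀ k : ℕ, a' ≤ h {d | ∃ n ≥ k, n ≤ z d n ∧ ∀ i, n ≤ i → i ≤ z d n → d ∉ A i} := by
    intro k
    obtain ⟨hU1, hU2⟩ := hUn B h B0 H hSub.compl hSub.sup z hz1 hz3 k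
    refine XCo.le_of_cover H ha' hA _ (hC _ hU1 hU2) _ fun t => ?_
    rw [← H.inter]
    apply XCo.mono H
    rintro d ⟨⟨n, hn, h1, h2, h3⟩, h4⟩
    refine ⟨n, hn, h1, fun i hi1 hi2 => ?_⟩
    have h5 := mem_iInter.1 h4 i
    exact h5.2 (h3 i hi1 hi2)
  have hV : ∀ k : ℕ, a' ≤ h {d | ∃ i ≥ k, d ∈ A i} := by
    intro k
    have hV1 : ∀ t : List Bool, (if ∃ i ≥ k, t[i]? = some true then (⊤ : B) else ⊥) ∈ B0 := by
      intro t
      split_ifs
      · exact htop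
      · exact hbot
    have hV2 : ∀ s : List Bool, ⨆ (t : List Bool) (_ : s <+: t),
        (if ∃ i ≥ k, t[i]? = some true then (⊤ : B) else ⊥) = ⊤ := by
      intro s
      rw [eq_top_iff]
      have hp : s <+: s ++ (List.replicate k false ++ [true]) := List.prefix_append _ _
      refine le_trans ?_ (le_iSup₂ (f := fun (t : List Bool) (_ : s <+: t) =>
        (if ∃ i ≥ k, t[i]? = some true then (⊤ : B) else ⊥))
        (s ++ (List.replicate k false ++ [true])) hp)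
      have hx : ∃ i ≥ k, (s ++ (List.replicate k false ++ [true]))[i]? = some true := by
        refine ⟨s.length + k, Nat.le_add_left _ _, ?_⟩
        rw [List.getElem?_append_right (Nat.le_add_right _ _), Nat.add_sub_cancel_left,
          List.getElem?_append_right (by simp)]
        simp
      show ⊤ ≤ (if ∃ i ≥ k, (s ++ (List.replicate k false ++ [true]))[i]? = some true
        then (⊤ : B) else ⊥)
      rw [if_pos hx]
    refine XCo.le_of_cover H ha' hA _ (hC _ hV1 hV2) _ fun t => ?_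
    by_cases hx : ∃ i ≥ k, t[i]? = some true
    · rw [if_pos hx, top_inf_eq]
      apply XCo.mono H
      intro d hd
      obtain ⟨i, hi, hti⟩ := hx
      exact ⟨i, hi, (mem_iInter.1 hd i).1 hti⟩
    · rw [if_neg hx, bot_inf_eq]
      exact bot_le
  -- the intersection
  have hI : a' ≤ h (⋂ k : ℕ, ({d | ∃ n ≥ k, n ≤ z d n ∧ ∀ i, n ≤ i → i ≤ z d n → d ∉ A i} ∩
      {d | ∃ i ≥ k, d ∈ A i})) := by
    rw [XCo.inter H]
    refine le_iInf fun k => ?_
    rw [H.inter]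
    exact le_inf (hE k) (hV k)
  have hI2 : a' ≤ h ((⋂ k : ℕ, ({d | ∃ n ≥ k, n ≤ z d n ∧ ∀ i, n ≤ i → i ≤ z d n → d ∉ A i} ∩
      {d | ∃ i ≥ k, d ∈ A i})) ∩ {d | ∃ k, ∀ n ≥ k, XCo.Fn A d n ≤ z d n}) := by
    rw [H.inter, hz2, inf_top_eq]
    exact hI
  have hemp : ((⋂ k : ℕ, ({d | ∃ n ≥ k, n ≤ z d n ∧ ∀ i, n ≤ i → i ≤ z d n → d ∉ A i} ∩
      {d | ∃ i ≥ k, d ∈ A i})) ∩ {d | ∃ k, ∀ n ≥ k, XCo.Fn A d n ≤ z d n}) = (∅ : Set W1) := by
    rw [eq_empty_iff_forall_notMem]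
    rintro d ⟨h1, k, h2⟩
    obtain ⟨n, hn, -, h3⟩ := (mem_iInter.1 h1 k).1
    obtain ⟨i, hi, hdi⟩ := (mem_iInter.1 h1 n).2
    exact h3 _ (XCo.Fn_le A d n) (h2 n hn) (XCo.Fn_mem A d n i hi hdi)
  rw [hemp, (pr_Nul W1 B h H).1, le_bot_iff] at hI2
  exact hI2

end MP33c03aG
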