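import Pool.Agent.Work.MP_33c03a_lc.G.Stmts

/-!
Item Dm of block G: the reals of the ground model are dominated by the extension by `B0`.
-/

open Set

namespace MP33c03aG

open MP33c03aR

universe u

namespace XDm

/-- normal homomorphisms are monotone -/
theorem mono {B : Type u} [CompleteBooleanAlgebra B] {h : Set W1 → B} (hh : NH h)
    {A A' : Set W1} (hA : A ⊆ A') : h A ≤ h A' := by
  have h1 := hh.inter A A'
  rw [inter_eq_self_of_subset_left hA] at h1
  rw [h1]
  exact inf_le_right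

end XDm

theorem prfDm : StGn.{u} → StSp → StZz.{u} → StDm.{u} := by
  intro hGn hSp hZz hPG B _ h hh f hf B0 hB0 F
  let G : W1 → ℕ → ℕ := fun d n => (Finset.range (n + 1)).sup (F d)
  obtain ⟨C, _, hC, hm⟩ := hGn hPG B h hh f hf B0 hB0
    (fun d => {w | ∃ k, ∀ n ∈ w, k ≤ n → ∀ m ∈ w, n < m → G d n ≤ m}) (fun d => hSp (G d))
  obtain ⟨z, hz, hzT⟩ := hZz B h B0 hh hB0.compl hB0.sup (fun d => Tr f C d) hm
  refine ⟨z, hz, ?_⟩
  apply top_unique
  rw [← hC]
  apply XDm.mono hh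
  rintro d ⟨⟨k, hk⟩, hinf⟩
  refine ⟨k, fun n hn => ?_⟩
  obtain ⟨hzn, a, haT, hna, haz⟩ := hzT d hinf n
  have h1 : G d a ≤ z d n := hk a haT (le_trans hn hna) (z d n) hzn haz
  have h2 : F d n ≤ G d a :=
    Finset.le_sup (f := F d) (Finset.mem_range.mpr (Nat.lt_succ_of_le hna))
  exact h2.trans h1

end MP33c03aG
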