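import Pool.Agent.Work.MP_33c03a_lc.G.Stmts
import Pool.Agent.Work.MP_33c03a_lc.I_W1

/-!
Item Ex of block G: there are ladder systems on `ω₁`.
-/

set_option autoImplicit false

open Set

namespace MP33c03aG

open MP33c03aR

namespace XEx

theorem bound {W : Type 1} [LinearOrder W] (e : ℕ → W) (x : W) (hx : ∃ y, y < x) (n : ℕ)
    (h : ∀ i < n, e i < x) : ∃ y < x, ∀ i < n, e i ≤ y := by
  induction n with
  | zero =>
    obtain ⟨y, hy⟩ := hx
    exact ⟨y, hy, fun i hi => absurd hi (Nat.not_lt_zero i)⟩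
  | succ n ih =>
    obtain ⟨y, hy, hi⟩ := ih fun i hi => h i (hi.trans (Nat.lt_succ_self n))
    refine ⟨max y (e n), max_lt hy (h n (Nat.lt_succ_self n)), fun i hin => ?_⟩
    rcases Nat.lt_succ_iff_lt_or_eq.1 hin with h1 | h1
    · exact (hi i h1).trans (le_max_left _ _)
    · rw [h1]
      exact le_max_right _ _

theorem lad {W : Type 1} [LinearOrder W] (d : W) (e : ℕ → W) (he : Iio d = range e) :
    Lad (fun x => sInf {n | x ≤ e n}) d := by
  have hlt : ∀ n, e n < d := by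
    intro n
    have h : e n ∈ Iio d := he ▸ mem_range_self n
    exact h
  have hne : ∀ x < d, {n | x ≤ e n}.Nonempty := by
    intro x hx
    have h : x ∈ range e := he ▸ hx
    obtain ⟨n, hn⟩ := h
    exact ⟨n, hn.ge⟩
  have hmem : ∀ x < d, x ≤ e (sInf {n | x ≤ e n}) := fun x hx => Nat.sInf_mem (hne x hx)
  refine ⟨?_, ?_⟩
  · intro x hx hy
    obtain ⟨y, hyx, hi⟩ := bound e x hy (sInf {n | x ≤ e n}) (by
      intro i hi
      exact not_le.1 (fun h => Nat.notMem_of_lt_sInf hi h))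
    refine ⟨y, hyx, fun z hz hzx => ?_⟩
    show sInf {n | z ≤ e n} = sInf {n | x ≤ e n}
    apply le_antisymm
    · exact Nat.sInf_le (hzx.trans (hmem x hx))
    · by_contra hcon
      have h1 := hi _ (not_le.1 hcon)
      exact absurd ((hmem z (hzx.trans_lt hx)).trans h1) (not_le.2 hz)
  · intro n
    obtain ⟨y, hyd, hi⟩ := bound e d ⟨e 0, hlt 0⟩ (n + 1) (fun i _ => hlt i)
    refine ⟨y, hyd, fun z hz hzn => ?_⟩
    exact (hmem z hz).trans (hi _ (Nat.lt_succ_of_le hzn))

end XEx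

/-- Ex -/
theorem prfEx : StEx := by
  have h : ∀ d : W1, ∃ g : W1 → ℕ, LimPt univ d → Lad g d := by
    intro d
    by_cases hd : LimPt univ d
    · obtain ⟨e, he⟩ := (pr_W1.1 d).exists_eq_range hd.1
      exact ⟨_, fun _ => XEx.lad d e he⟩
    · exact ⟨fun _ => 0, fun h => absurd h hd⟩
  choose f hf using h
  exact ⟨f, hf⟩

end MP33c03aG
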