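import Pool.Agent.Work.MP_33c03a_lc.G.Stmts

/-!
Block G, item Fn: finitely many values on initial segments.
-/

open Set

namespace MP33c03aG

open MP33c03aR

/-- Item Fn. -/
theorem prfFn : StFn := by
  intro W _ _ g d hc x
  induction x using WellFoundedLT.induction with
  | ind x ih =>
    intro hx
    by_cases h : ∃ y, y < x
    · obtain ⟨y, hy, hyx⟩ := hc x hx h
      refine ((ih y hy (hy.trans hx)).union (finite_singleton (g x))).subset ?_
      rintro _ ⟨z, hz, rfl⟩
      rcases le_or_gt z y with hzy | hzy
      · exact Or.inl ⟨z, hzy, rfl⟩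
      · exact Or.inr (hyx z hzy hz)
    · refine (finite_singleton (g x)).subset ?_
      rintro _ ⟨z, hz, rfl⟩
      rcases (show z ≤ x from hz).lt_or_eq with hzx | hzx
      · exact absurd ⟨z, hzx⟩ h
      · rw [hzx]
        exact rfl

end MP33c03aG
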