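import Pool.Agent.Work.MP_33c03a_lc.G.Stmts
import Pool.Agent.Work.MP_33c03a_lc.I_Nul
import Pool.Agent.Work.MP_33c03a_lc.I_Fst
import Pool.Agent.Work.MP_33c03a_lc.I_Sig
import Pool.Agent.Work.MP_33c03a_lc.I_W1

/-! Block G (MP_33c03a_lc), item Ms: the sets with value in `B0`. -/

open Set

namespace MP33c03aG

open MP33c03aR

universe u

theorem prfMs : StMs.{u} := by
  intro B _ h B0 H hc hs
  obtain ⟨n1, n2, n3, n4, n5, n6⟩ := pr_Nul W1 B h H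
  have hSig : ∀ A : ℕ → Set W1, h (⋃ n, A n) = ⨆ n, h (A n) :=
    pr_Sig pr_Nul pr_Fst W1 B h pr_W1 H
  have hC : ∀ A, h A ∈ B0 → h Aᶜ ∈ B0 := by
    intro A hA
    rw [H.compl]
    exact hc _ hA
  have hU : ∀ A : ℕ → Set W1, (∀ n, h (A n) ∈ B0) → h (⋃ n, A n) ∈ B0 := by
    intro A hA
    rw [hSig]
    refine hs _ ?_
    rintro _ ⟨n, rfl⟩
    exact hA n
  have hI : ∀ A : ℕ → Set W1, (∀ n, h (A n) ∈ B0) → h (⋂ n, A n) ∈ B0 := by
    intro A hA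
    have h1 : (⋂ n, A n) = (⋃ n, (A n)ᶜ)ᶜ := by
      rw [compl_iUnion]
      simp only [compl_compl]
    rw [h1]
    exact hC _ (hU _ fun n => hC _ (hA n))
  have hUn : ∀ A A', h A ∈ B0 → h A' ∈ B0 → h (A ∪ A') ∈ B0 := by
    intro A A' hA hA'
    rw [n3, ← sSup_pair]
    refine hs _ ?_
    intro x hx
    rcases hx with rfl | rfl
    · exact hA
    · exact hA'
  have hIn : ∀ A A', h A ∈ B0 → h A' ∈ B0 → h (A ∩ A') ∈ B0 := by
    intro A A' hA hA'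
    have h1 : A ∩ A' = (Aᶜ ∪ A'ᶜ)ᶜ := by rw [compl_union, compl_compl, compl_compl]
    rw [h1]
    exact hC _ (hUn _ _ (hC _ hA) (hC _ hA'))
  have h0 : h ∅ ∈ B0 := by
    rw [n1, ← sSup_empty]
    exact hs _ (empty_subset _)
  refine ⟨hC, hU, hI, fun A A' hA hA' => ⟨hIn A A' hA hA', hUn A A' hA hA'⟩, h0, ?_, ?_⟩
  · rw [← compl_empty]
    exact hC _ h0
  · intro A hA
    have h1 := H.diag (fun x => {d | x < d ∧ d ∈ A x})
    have h2 : {d | ∃ x < d, d ∈ {d | x < d ∧ d ∈ A x}} = {d | ∃ x < d, d ∈ A x} := by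
      ext d
      constructor
      · rintro ⟨x, hx, _, hd⟩
        exact ⟨x, hx, hd⟩
      · rintro ⟨x, hx, hd⟩
        exact ⟨x, hx, hx, hd⟩
    rw [h2] at h1
    rw [h1]
    refine hs _ ?_
    rintro _ ⟨x, rfl⟩
    exact hA x

end MP33c03aG
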