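import Pool.Agent.Work.MP_33c03a_lc.G.Stmts

/-!
# MP_33c03a_lc, block G, item Nl (helper60): no linked families guess clubs
-/

set_option autoImplicit false

open Set

namespace MP33c03aG

open MP33c03aR

namespace XNl

/-- An infinite set of natural numbers has two disjoint infinite subsets. -/
theorem split {w : Set ℕ} (hw : w.Infinite) :
    ∃ w1 w2 : Set ℕ, w1.Infinite ∧ w2.Infinite ∧ w1 ⊆ w ∧ w2 ⊆ w ∧ ∀ n, n ∈ w1 → n ∉ w2 := by
  set e := hw.natEmbedding with he
  refine ⟨range (fun n => ((e (2 * n) : w) : ℕ)), range (fun n => ((e (2 * n + 1) : w) : ℕ)),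
    ?_, ?_, ?_, ?_, ?_⟩
  · refine infinite_range_of_injective fun a b h => ?_
    have h1 := e.injective (Subtype.ext h)
    omega
  · refine infinite_range_of_injective fun a b h => ?_
    have h1 := e.injective (Subtype.ext h)
    omega
  · rintro _ ⟨n, rfl⟩
    exact (e (2 * n)).2
  · rintro _ ⟨n, rfl⟩
    exact (e (2 * n + 1)).2
  · rintro _ ⟨n, rfl⟩ ⟨m, hm⟩
    have h1 := e.injective (Subtype.ext hm)
    omega

end XNl

open Classical in
theorem prfNl : StEx → StTi → StNl := by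
  intro hEx hTi hPG S hS
  obtain ⟨f, hf⟩ := hEx
  obtain ⟨C, hC, hT⟩ := hPG f (fun d => if LimPt univ d then
    {w | ∀ A ∈ S d, ¬ ((f d '' (A ∩ Iio d)) \ w).Finite} else univ) hf (by
      intro d
      by_cases hd : LimPt univ d
      · simp only [hd, if_true]
        constructor
        · intro w hw w' _ hfin A hA hcon
          refine hw A hA ((hcon.union hfin).subset ?_)
          rintro n ⟨h1, h2⟩
          by_cases h3 : n ∈ w'
          · exact Or.inr ⟨h3, h2⟩
          · exact Or.inl ⟨h1, h3⟩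
        · intro w hw
          obtain ⟨w1, w2, h1, h2, h3, h4, h5⟩ := XNl.split hw
          by_cases hw1 : ∀ A ∈ S d, ¬ ((f d '' (A ∩ Iio d)) \ w1).Finite
          · exact ⟨w1, hw1, h1, h3⟩
          by_cases hw2 : ∀ A ∈ S d, ¬ ((f d '' (A ∩ Iio d)) \ w2).Finite
          · exact ⟨w2, hw2, h2, h4⟩
          exfalso
          push Not at hw1 hw2
          obtain ⟨A1, hA1, hf1⟩ := hw1
          obtain ⟨A2, hA2, hf2⟩ := hw2
          have h6 := hTi W1 (f d) d (hf d hd) (A1 ∩ A2 ∩ Iio d) (fun x hx => hx.2) (by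
            intro y hy
            obtain ⟨x, hx, hyx, hxd⟩ := hS d A1 hA1 A2 hA2 y hy
            exact ⟨x, ⟨hx, hxd⟩, hyx⟩)
          apply h6
          refine (hf1.union hf2).subset ?_
          rintro _ ⟨x, ⟨⟨hx1, hx2⟩, hxd⟩, rfl⟩
          by_cases h7 : f d x ∈ w1
          · exact Or.inr ⟨⟨x, ⟨hx2, hxd⟩, rfl⟩, h5 _ h7⟩
          · exact Or.inl ⟨⟨x, ⟨hx1, hxd⟩, rfl⟩, h7⟩
      · simp only [hd, if_false]
        exact ⟨fun _ _ _ _ _ => trivial, fun w hw => ⟨w, trivial, hw, Subset.rfl⟩⟩)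
  refine ⟨C, hC, fun d hd hmem => ?_⟩
  have hd' : LimPt univ d := ⟨hd.1, fun y hy => by
    obtain ⟨z, -, h⟩ := hd.2 y hy
    exact ⟨z, trivial, h⟩⟩
  have h1 := hT d hd
  simp only [hd', if_true] at h1
  refine h1 _ hmem ?_
  convert Set.finite_empty
  rw [Set.sdiff_eq_empty]
  rintro _ ⟨x, ⟨⟨hx, _⟩, hxd⟩, rfl⟩
  exact ⟨x, hx, hxd, rfl⟩

end MP33c03aG
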