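import Pool.Agent.Work.MP_33c03a_lc.G.Stmts

/-!
Block G (MP_33c03a_lc), item Op: the sets `Sg` are open if the complement of `D` is open on the left.
-/

set_option autoImplicit false

open Set

namespace MP33c03aG

open MP33c03aR

namespace XOp

theorem mem_CS (X Y : ZFSet.{0}) : Y ∈ CS X ↔ Y ⊆ X ∧ Ctb Y := by
  unfold CS
  rw [ZFSet.mem_sep, ZFSet.mem_powerset]

/-- every set of ordinals bounded by `s` has a least upper bound `≤ s` -/
theorem lub (Z : ZFSet.{0}) (s : Ordinal.{0}) (h : ∀ a : Ordinal.{0}, a.toZFSet ∈ Z → a ≤ s) :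
    ∃ s2 ≤ s, Lub Z s2 := by
  have hne : {s' : Ordinal.{0} | ∀ a : Ordinal.{0}, a.toZFSet ∈ Z → a ≤ s'}.Nonempty := ⟨s, h⟩
  refine ⟨sInf {s' : Ordinal.{0} | ∀ a : Ordinal.{0}, a.toZFSet ∈ Z → a ≤ s'},
    csInf_le' h, csInf_mem hne, fun t ht => ?_⟩
  by_contra hc
  push Not at hc
  have hc' : t ∈ {s' : Ordinal.{0} | ∀ a : Ordinal.{0}, a.toZFSet ∈ Z → a ≤ s'} := hc
  exact absurd (csInf_le' hc') (not_le.2 ht)

end XOp

/-- Item [Op] -/
theorem prfOp : StOp := by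
  classical
  intro D δ _hδ hcont
  refine ⟨fun Y hY => hY.1, ?_⟩
  rintro Y ⟨hYC, s, hs, hsδ, hsD⟩
  obtain ⟨hYO, hYc⟩ := (XOp.mem_CS O1 Y).1 hYC
  by_cases hex : ∃ t, t < s
  · obtain ⟨t, hts, ht⟩ := hcont s hsδ hsD hex
    obtain ⟨a, haY, hat⟩ := hs.2 t hts
    refine ⟨{a.toZFSet}, Y, ?_, hYC, ?_, subset_rfl, ?_⟩
    · have : {z | z ∈ ({a.toZFSet} : ZFSet.{0})} = {a.toZFSet} := by
        ext z; simp
      rw [this]
      exact Set.finite_singleton _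
    · intro z hz
      rw [ZFSet.mem_singleton] at hz
      rw [hz]
      exact haY
    · intro Z hxZ hZY
      have hZC : Z ∈ CS O1 := (XOp.mem_CS O1 Z).2
        ⟨fun z hz => hYO (hZY hz), hYc.mono fun z hz => hZY hz⟩
      obtain ⟨s2, hs2, hlub⟩ := XOp.lub Z s fun b hb => hs.1 b (hZY hb)
      have haZ : a.toZFSet ∈ Z := hxZ (ZFSet.mem_singleton.2 rfl)
      exact ⟨hZC, s2, hlub, lt_of_le_of_lt hs2 hsδ,
        ht s2 (lt_of_lt_of_le hat (hlub.1 a haZ)) hs2⟩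
  · refine ⟨∅, Y, ?_, hYC, ?_, subset_rfl, ?_⟩
    · have : {z | z ∈ (∅ : ZFSet.{0})} = ∅ := by
        ext z; simp
      rw [this]
      exact Set.finite_empty
    · intro z hz
      exact absurd hz (ZFSet.notMem_empty z)
    · intro Z _ hZY
      have hZC : Z ∈ CS O1 := (XOp.mem_CS O1 Z).2
        ⟨fun z hz => hYO (hZY hz), hYc.mono fun z hz => hZY hz⟩
      obtain ⟨s2, hs2, hlub⟩ := XOp.lub Z s fun b hb => hs.1 b (hZY hb)
      have hss : s2 = s := by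
        rcases lt_or_eq_of_le hs2 with h | h
        · exact absurd ⟨s2, h⟩ hex
        · exact h
      exact ⟨hZC, s2, hlub, lt_of_le_of_lt hs2 hsδ, by rw [hss]; exact hsD⟩

end MP33c03aG
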