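import Pool.Agent.Work.MP_33c03a_lc.G.Stmts
import Pool.Agent.Work.MP_33c03a_lc.StmtsB

/-!
Item Pg of block G (MP_33c03a_lc): from ordinals to `W1`.
-/

open Set

namespace MP33c03aG

open MP33c03aR

private theorem Pg_lt (c : Ordinal.{0} → Ordinal.{0}) (hc : Cseq c) (ξ η : Ordinal.{0})
    (hξ : ξ < Ordinal.omega 1) (h : c ξ < c η) : ξ < η := by
  by_contra h1
  rw [not_lt] at h1
  rcases h1.eq_or_lt with h2 | h2
  · rw [h2] at h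
    exact lt_irrefl _ h
  · exact lt_asymm h (hc.mono _ _ h2 hξ)

open Classical in
/-- The function on ordinals. -/
private noncomputable def Pg_f (f : W1 → W1 → ℕ) (δ t : Ordinal.{0}) : ℕ :=
  if h : δ < Ordinal.omega 1 ∧ t < Ordinal.omega 1 then f ⟨δ, h.1⟩ ⟨t, h.2⟩ else 0

open Classical in
/-- The families on ordinals. -/
private noncomputable def Pg_Q (Q : W1 → Set (Set ℕ)) (δ : Ordinal.{0}) : Set (Set ℕ) :=
  if h : δ < Ordinal.omega 1 then Q ⟨δ, h⟩ else univ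

private theorem Pg_f_eq (f : W1 → W1 → ℕ) (d x : W1) : Pg_f f d.1 x.1 = f d x := by
  have h : d.1 < Ordinal.omega 1 ∧ x.1 < Ordinal.omega 1 := ⟨d.2, x.2⟩
  unfold Pg_f
  rw [dif_pos h]

private theorem Pg_Q_eq (Q : W1 → Set (Set ℕ)) (d : W1) : Pg_Q Q d.1 = Q d := by
  have h : d.1 < Ordinal.omega 1 := d.2
  unfold Pg_Q
  rw [dif_pos h]

private theorem Pg_lim (δ : Ordinal.{0}) (hδ : δ < Ordinal.omega 1) (hl : Order.IsSuccLimit δ) :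
    LimPt univ (⟨δ, hδ⟩ : W1) := by
  constructor
  · have h0 : (0 : Ordinal.{0}) < δ := by
      rcases eq_or_ne δ 0 with h | h
      · exact absurd (h ▸ isMin_bot : IsMin δ) hl.1
      · exact pos_iff_ne_zero.2 h
    exact ⟨⟨0, h0.trans hδ⟩, h0⟩
  · intro y hy
    have hy' : y.1 < δ := hy
    have h1 : Order.succ y.1 < δ := hl.succ_lt hy'
    exact ⟨⟨Order.succ y.1, h1.trans hδ⟩, mem_univ _, (Order.lt_succ y.1 : y.1 < _), h1⟩

theorem prfPg (hTi : StTi) (hCcl : StCcl) : StPg := by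
  intro hP f Q hf hQ
  obtain ⟨c, hc, hc2⟩ := hP (Pg_f f) (Pg_Q Q) (by
    intro δ hδ hl
    have hL := hf ⟨δ, hδ⟩ (Pg_lim δ hδ hl)
    constructor
    · intro x hx hy
      obtain ⟨y, hy⟩ := hy
      have hx1 : x < Ordinal.omega 1 := lt_trans hx hδ
      obtain ⟨y', hy', h⟩ := hL.cont ⟨x, hx1⟩ hx ⟨⟨y, hy.trans hx1⟩, hy⟩
      refine ⟨y'.1, hy', fun z hz1 hz2 => ?_⟩
      have hz3 : z < Ordinal.omega 1 := lt_of_le_of_lt hz2 hx1
      have e1 := Pg_f_eq f ⟨δ, hδ⟩ ⟨z, hz3⟩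
      have e2 := Pg_f_eq f ⟨δ, hδ⟩ ⟨x, hx1⟩
      have e3 := h ⟨z, hz3⟩ hz1 hz2
      exact e1.trans (e3.trans e2.symm)
    · intro n
      obtain ⟨y, hy, h⟩ := hL.fib n
      refine ⟨y.1, hy, fun z hz hn => ?_⟩
      have hz3 : z < Ordinal.omega 1 := lt_trans hz hδ
      have e1 := Pg_f_eq f ⟨δ, hδ⟩ ⟨z, hz3⟩
      have e2 : f ⟨δ, hδ⟩ ⟨z, hz3⟩ ≤ n := by
        rw [← e1]
        exact hn
      exact h ⟨z, hz3⟩ hz e2) (by
    intro δ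
    by_cases hδ : δ < Ordinal.omega 1
    · rw [Pg_Q_eq Q ⟨δ, hδ⟩]
      exact hQ _
    · have : Pg_Q Q δ = univ := by
        unfold Pg_Q
        rw [dif_neg hδ]
      rw [this]
      exact ⟨fun _ _ _ _ _ => mem_univ _, fun w hw => ⟨w, mem_univ _, hw, subset_rfl⟩⟩)
  obtain ⟨h1, h2⟩ := hCcl c hc
  refine ⟨_, h1, fun d hd => ?_⟩
  obtain ⟨ν, hν, hLL, hdν⟩ := h2 d hd
  have hS := hc2 ν hν hLL.1
  rw [← hdν, Pg_Q_eq] at hS
  have hU : LimPt univ d := ⟨hd.1, fun y hy => by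
    obtain ⟨z, -, hz⟩ := hd.2 y hy
    exact ⟨z, mem_univ _, hz⟩⟩
  refine (hQ d).1 _ hS _ ?_ ?_
  · have h3 := hTi W1 (f d) d (hf d hU)
      ({x : W1 | (∃ ν < Ordinal.omega 1, Order.IsSuccLimit ν ∧ x.1 = c ν) ∧ x < d})
      (fun x hx => hx.2) (fun y hy => by
        obtain ⟨z, hz1, hz2, hz3⟩ := hd.2 y hy
        exact ⟨z, ⟨hz1, hz3⟩, hz2⟩)
    refine h3.mono ?_
    rintro n ⟨x, ⟨hx1, hx2⟩, hx3⟩
    exact ⟨x, hx1, hx2, hx3⟩
  · have h4 : Tr f {d : W1 | ∃ ν < Ordinal.omega 1, Order.IsSuccLimit ν ∧ d.1 = c ν} d \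
        {n | ∃ ξ < ν, Pg_f f d.1 (c ξ) = n} = ∅ := by
      rw [sdiff_eq_empty]
      rintro n ⟨x, ⟨μ, hμ, -, hxμ⟩, hxd, hn⟩
      have hxd' : x.1 < d.1 := hxd
      rw [hxμ, hdν] at hxd'
      refine ⟨μ, Pg_lt c hc μ ν hμ hxd', ?_⟩
      rw [← hxμ, Pg_f_eq]
      exact hn
    rw [h4]
    exact finite_empty

end MP33c03aG
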