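import Pool.Agent.Work.MP_33c03a_lc.G.Stmts
import Pool.Agent.Work.MP_33c03a_lc.I_All
import Pool.Agent.Work.MP_33c03a_lc.I_Cbs
import Pool.Agent.Work.MP_33c03a_lc.I_Chm
import Pool.Agent.Work.MP_33c03a_lc.I_Ctl
import Pool.Agent.Work.MP_33c03a_lc.I_G1
import Pool.Agent.Work.MP_33c03a_lc.I_G2
import Pool.Agent.Work.MP_33c03a_lc.I_G3
import Pool.Agent.Work.MP_33c03a_lc.I_G4
import Pool.Agent.Work.MP_33c03a_lc.I_Gd
import Pool.Agent.Work.MP_33c03a_lc.I_Hex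
import Pool.Agent.Work.MP_33c03a_lc.I_Htr
import Pool.Agent.Work.MP_33c03a_lc.I_Hts
import Pool.Agent.Work.MP_33c03a_lc.I_Hx
import Pool.Agent.Work.MP_33c03a_lc.I_Lub
import Pool.Agent.Work.MP_33c03a_lc.I_Neg
import Pool.Agent.Work.MP_33c03a_lc.I_Ran
import Pool.Agent.Work.MP_33c03a_lc.I_Sko

/-!
Block G (MP_33c03a_lc), item Po: from the Mapping Reflection Principle to the principle on ordinals.
-/

set_option autoImplicit false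

open Set

namespace MP33c03aG

open MP33c03aR

namespace XPo

theorem uniq {M : ZFSet.{0}} {δ δ' : Ordinal.{0}} (h : Hgt M δ) (h' : Hgt M δ') : δ = δ' := by
  apply Ordinal.toZFSet_injective
  ext z
  rw [← h.2.2 z, ← h'.2.2 z]

theorem core (hHx : StHx) (hHex : StHex) (hCbs : StCbs) (hGd : StGd) (hHts : StHts)
    (hLub : StLub) (hAll : StAll) (hNeg : StNeg) (hOp : StOp) (hFn : StFn) (hTi : StTi) :
    StPo := by
  classical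
  intro hM f Q hf hQ
  obtain ⟨θ, hθ, hX⟩ := hHex (CS O1)
  obtain ⟨-, -, -, hunc⟩ := hHx θ hθ hX
  obtain ⟨G, hG1, hG2⟩ := hGd θ hθ hX
  set dom : Set ZFSet.{0} := {M | Ctb M ∧ (∀ z ∈ M, z ∈ HH θ) ∧ Clo G M} with hdom
  have hgd : ∀ M ∈ dom, Gd θ M := fun M h => hG2 M h.1 h.2.1 h.2.2
  let dl : ZFSet.{0} → Ordinal.{0} := fun M => if h : ∃ δ, Hgt M δ then h.choose else 0
  have hdl : ∀ M ∈ dom, Hgt M (dl M) := by
    intro M h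
    have h' : ∃ δ, Hgt M δ := (hgd M h).hgt
    simp only [dl, dif_pos h']
    exact h'.choose_spec
  obtain ⟨E, hE⟩ : ∃ E : Set ℕ → Ordinal.{0} → Set Ordinal.{0},
      ∀ w δ s, s ∈ E w δ ↔ f δ s ∉ w := ⟨fun w δ => {s | f δ s ∉ w}, fun w δ s => Iff.rfl⟩
  let Sm : ZFSet.{0} → Set ZFSet.{0} := fun M =>
    if h : ∃ w ∈ Q (dl M), MStat O1 M (Sg (E w (dl M)) (dl M)) then
      Sg (E h.choose (dl M)) (dl M) else {Y | Y ∈ CS O1}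
  obtain ⟨N, hN1, hN2, hN3, hN4⟩ := hM O1 θ hunc hθ hX dom Sm (hCbs θ G hG1)
    (fun M h => ⟨(hgd M h).el, (hgd M h).om⟩) (fun M h => by
      have h1 := hdl M h
      by_cases hc : ∃ w ∈ Q (dl M), MStat O1 M (Sg (E w (dl M)) (dl M))
      · simp only [Sm, dif_pos hc]
        refine ⟨hOp _ _ h1.1 (fun s hs hsE hex => ?_), hc.choose_spec.2⟩
        obtain ⟨t, ht, ht2⟩ := (hf _ h1.1 h1.2.1).cont s hs hex
        refine ⟨t, ht, fun t' h3 h4 h5 => ?_⟩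
        rw [hE, ht2 t' h3 h4, ← hE] at h5
        exact hsE h5
      · simp only [Sm, dif_neg hc]
        exact hAll θ M (hgd M h))
  have hch : Chn θ N := ⟨fun ξ h => hgd _ (hN1 ξ h), hN2, hN3⟩
  obtain ⟨c, hc, hcN⟩ := hHts θ N hch
  have hdlc : ∀ ξ < Ordinal.omega 1, dl (N ξ) = c ξ := fun ξ h =>
    uniq (hdl _ (hN1 ξ h)) (hcN ξ h)
  refine ⟨c, hc, fun ν hν hlim => ?_⟩
  have hLad : Lad (f (c ν)) (c ν) := hf _ (hcN ν hν).1 (hcN ν hν).2.1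
  have hfin : ∀ μ < ν, (f (c ν) '' Iic (c μ)).Finite := fun μ h =>
    hFn Ordinal.{0} (f (c ν)) (c ν) hLad.cont (c μ) (hc.mono μ ν h hν)
  have hmono : ∀ ξ μ, ξ ≤ μ → μ < ν → c ξ ≤ c μ := by
    intro ξ μ h1 h2
    rcases h1.eq_or_lt with h | h
    · rw [h]
    · exact (hc.mono ξ μ h (h2.trans hν)).le
  have hinf : {n | ∃ ξ < ν, f (c ν) (c ξ) = n}.Infinite := by
    have h1 := hTi Ordinal.{0} (f (c ν)) (c ν) hLad {x | ∃ ξ < ν, x = c ξ}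
      (by rintro x ⟨ξ, h, rfl⟩; exact hc.mono ξ ν h hν)
      (fun y hy => by
        obtain ⟨ξ, h, h2⟩ := hc.cont ν hν hlim y hy
        exact ⟨c ξ, ⟨ξ, h, rfl⟩, h2⟩)
    refine h1.mono ?_
    rintro n ⟨x, ⟨ξ, h, rfl⟩, rfl⟩
    exact ⟨ξ, h, rfl⟩
  obtain ⟨ν₀, hν₀, htail⟩ := hN4 ν hν hlim
  by_cases hcs : ∃ w ∈ Q (dl (N ν)), MStat O1 (N ν) (Sg (E w (dl (N ν))) (dl (N ν)))
  · have hw := hcs.choose_spec.1
    have htail' : ∀ ξ, ν₀ < ξ → ξ < ν →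
        N ξ ∩ O1 ∈ Sg (E hcs.choose (dl (N ν))) (dl (N ν)) := fun ξ h1 h2 => by
      have h3 := htail ξ h1 h2
      simp only [Sm, dif_pos hcs] at h3
      exact h3
    generalize hcs.choose = w at hw htail'
    rw [hdlc ν hν] at hw htail'
    refine (hQ _).1 w hw _ hinf ?_
    refine (hfin ν₀ hν₀).subset ?_
    rintro n ⟨⟨ξ, hξ, rfl⟩, hnw⟩
    have hle : ξ ≤ ν₀ := by
      by_contra hlt
      obtain ⟨-, s, hs1, -, hs3⟩ := htail' ξ (not_le.1 hlt) hξ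
      have hξ' : ξ < Ordinal.omega 1 := hξ.trans hν
      have h4 := (hLub.2 (N ξ) (c ξ) (hcN ξ hξ') (hgd _ (hN1 ξ hξ')).ct).2
      have h5 := hLub.1 _ _ _ h4 hs1
      rw [← h5] at hs3
      exact hs3 ((hE _ _ _).2 hnw)
    exact ⟨c ξ, hmono ξ ν₀ hle hν₀, rfl⟩
  · exfalso
    obtain ⟨w, hwQ, hwi, hwT⟩ := (hQ (c ν)).2 _ hinf
    have hns : ¬ MStat O1 (N ν) (Sg (E w (c ν)) (c ν)) := fun h =>
      hcs ⟨w, by rw [hdlc ν hν]; exact hwQ, by rw [hdlc ν hν]; exact h⟩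
    obtain ⟨μ, hμ, hμ2⟩ := hNeg θ N c hch hc hcN (E w (c ν)) ν hν hlim hns
    refine hwi ((hfin μ hμ).subset ?_)
    intro n hn
    obtain ⟨ξ, hξ, rfl⟩ := hwT hn
    have hle : ξ ≤ μ := by
      by_contra hlt
      exact (hE _ _ _).1 (hμ2 ξ (not_le.1 hlt) hξ) hn
    exact ⟨c ξ, hmono ξ μ hle hμ, rfl⟩

theorem hHx : StHx := pr_Hx pr_Htr
theorem hG1 : StG1 := pr_G1 pr_Htr pr_Ctl
theorem hG2 : StG2 := pr_G2 pr_Htr pr_Ctl
theorem hG3 : StG3 := pr_G3 pr_Htr hHx pr_Ctl hG1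
theorem hG4 : StG4 := pr_G4 pr_Htr hHx pr_Ctl hG1 hG2
theorem hGd : StGd := pr_Gd hHx pr_Ctl pr_Sko hG1 hG2 hG3 hG4

end XPo

theorem prfPo : StOp → StFn → StTi → StPo :=
  XPo.core XPo.hHx pr_Hex (pr_Cbs pr_Ran) XPo.hGd (pr_Hts pr_Chm) pr_Lub pr_All
    (pr_Neg pr_Chm pr_Lub)

end MP33c03aG
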