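import Pool.Agent.Work.MP_33c03a_lc.G.StmtsR

/-!
Block G (MP_33c03a_lc), item R2: Ramsey's theorem for pairs as a dense open family.
-/

open Set

namespace MP33c03aG

namespace XR2

/-- the recursive choice, with the help of an ultrafilter -/
theorem core (χ : ℕ → ℕ → Prop) (w : Set ℕ) (U : Ultrafilter ℕ) (hw : w ∈ U)
    (hU : ∀ x : ℕ, {y | x < y} ∈ U) (hP : {n | {m | χ n m} ∈ U} ∈ U) :
    ∃ w' : Set ℕ, w'.Infinite ∧ w' ⊆ w ∧ ∀ n ∈ w', ∀ m ∈ w', n < m → χ n m := by
  obtain ⟨f, hf1, hf2⟩ := exists_seq_of_forall_finset_exists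
    (fun n => n ∈ w ∧ {m | χ n m} ∈ U) (fun x y => x < y ∧ χ x y) (fun s hs => by
      have h1 : (⋂ x ∈ s, ({y | x < y} ∩ {y | χ x y})) ∈ U := by
        have h3 := (Filter.biInter_finset_mem (f := (U : Filter ℕ))
          (s := fun x => ({y | x < y} ∩ {y | χ x y})) s).2
        exact h3 fun x hx => Filter.inter_mem (hU x) (hs x hx).2
      have h2 := Filter.inter_mem (Filter.inter_mem hw hP) h1
      obtain ⟨y, ⟨hy1, hy2⟩, hy3⟩ := U.nonempty_of_mem h2
      refine ⟨y, ⟨hy1, hy2⟩, fun x hx => ?_⟩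
      have h4 := Set.mem_iInter₂.1 hy3 x hx
      exact h4)
  have hm : StrictMono f := fun a b hab => (hf2 a b hab).1
  refine ⟨Set.range f, Set.infinite_range_of_injective hm.injective, ?_, ?_⟩
  · rintro _ ⟨i, rfl⟩
    exact (hf1 i).1
  · rintro _ ⟨i, rfl⟩ _ ⟨j, rfl⟩ hij
    exact (hf2 i j (hm.lt_iff_lt.1 hij)).2

end XR2

open XR2 in
theorem prfR2 : StR2 := by
  intro χ
  constructor
  · rintro w ⟨k, hk⟩ w' _ hfin
    obtain ⟨K, hK⟩ := hfin.bddAbove
    have hin : ∀ n ∈ w', max k (K + 1) ≤ n → n ∈ w := by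
      intro n hn hle
      by_contra hnot
      have := hK (show n ∈ w' \ w from ⟨hn, hnot⟩)
      have h2 := (le_max_right k (K + 1)).trans hle
      omega
    refine ⟨max k (K + 1), ?_⟩
    rcases hk with hk | hk
    · left
      intro n hn hle m hm hnm
      exact hk n (hin n hn hle) ((le_max_left _ _).trans hle) m (hin m hm (hle.trans hnm.le)) hnm
    · right
      intro n hn hle m hm hnm
      exact hk n (hin n hn hle) ((le_max_left _ _).trans hle) m (hin m hm (hle.trans hnm.le)) hnm
  · intro w hw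
    have hne : (Filter.cofinite ⊓ Filter.principal w).NeBot := by
      rw [Filter.inf_principal_neBot_iff]
      intro s hs
      have h1 : (s ∩ w).Infinite := by
        intro hfin
        apply hw
        have h2 : w ⊆ sᶜ ∪ (s ∩ w) := by
          intro x hx
          by_cases hxs : x ∈ s
          · exact Or.inr ⟨hxs, hx⟩
          · exact Or.inl hxs
        exact ((Filter.mem_cofinite.1 hs).union hfin).subset h2
      exact h1.nonempty
    let U : Ultrafilter ℕ := @Ultrafilter.of _ (Filter.cofinite ⊓ Filter.principal w) hne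
    have hle : (U : Filter ℕ) ≤ Filter.cofinite ⊓ Filter.principal w := @Ultrafilter.of_le _ _ hne
    have hwU : w ∈ U := (hle.trans inf_le_right) (Filter.mem_principal_self w)
    have hU : ∀ x : ℕ, {y | x < y} ∈ U := by
      intro x
      refine (hle.trans inf_le_left) ?_
      rw [Filter.mem_cofinite]
      refine (Set.finite_Iic x).subset ?_
      intro y hy
      simpa using hy
    by_cases hP : {n | {m | χ n m} ∈ U} ∈ U
    · obtain ⟨w', h1, h2, h3⟩ := core χ w U hwU hU hP
      exact ⟨w', ⟨0, Or.inl fun n hn _ m hm hnm => h3 n hn m hm hnm⟩, h1, h2⟩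
    · have hP' : {n | {m | ¬ χ n m} ∈ U} ∈ U := by
        have h4 := Ultrafilter.compl_mem_iff_notMem.2 hP
        refine Filter.mem_of_superset h4 ?_
        intro n hn
        have h5 : {m | χ n m} ∉ U := hn
        exact Ultrafilter.compl_mem_iff_notMem.2 h5
      obtain ⟨w', h1, h2, h3⟩ := core (fun n m => ¬ χ n m) w U hwU hU hP'
      exact ⟨w', ⟨0, Or.inr fun n hn _ m hm hnm => h3 n hn m hm hnm⟩, h1, h2⟩

end MP33c03aG
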