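import Pool.Agent.Work.MP_33c03a_lc.G.StmtsR
import Pool.Agent.Work.MP_33c03a_lc.I_Nul
import Pool.Agent.Work.MP_33c03a_lc.I_Fst
import Pool.Agent.Work.MP_33c03a_lc.I_Sig
import Pool.Agent.Work.MP_33c03a_lc.I_W1

/-!
Block G, item Ra (MP_33c03a_lc): the traces generate a Ramsey ultrafilter.
-/

open Set

namespace MP33c03aG

open MP33c03aR

universe u

namespace XRa

/-- Sigma-additivity on `W1`. -/
theorem sig {B : Type u} [CompleteBooleanAlgebra B] (h : Set W1 → B) (H : NH h)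
    (A : ℕ → Set W1) : h (⋃ n, A n) = ⨆ n, h (A n) :=
  (pr_Sig.{u} pr_Nul pr_Fst) W1 B h pr_W1 H A

/-- Some member of a countable cover is compatible with a condition. -/
theorem pick {B : Type u} [CompleteBooleanAlgebra B] (h : Set W1 → B) (H : NH h)
    (A : ℕ → Set W1) (hA : h (⋃ n, A n) = ⊤) (a : B) (ha : a ≠ ⊥) : ∃ k, a ⊓ h (A k) ≠ ⊥ := by
  by_contra hcon
  push Not at hcon
  apply ha
  have h1 : a = ⨆ n, a ⊓ h (A n) := by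
    rw [← inf_iSup_eq, ← sig h H, hA, inf_top_eq]
  rw [h1]
  simp [hcon]

end XRa

theorem prfRa : StGn.{u} → StR2 → StRa.{u} := by
  intro hGn hR2 hPG B _ h H hFull f hf B0 hS c a ha
  obtain ⟨hbot, hmono, hun, hdiff, htop, hint⟩ := pr_Nul W1 B h H
  obtain ⟨a1, ha1a, ha1, A', hA'⟩ := hFull (fun k => c (Nat.unpair k).1 (Nat.unpair k).2) a ha
  obtain ⟨A, hAd⟩ : ∃ A : ℕ → ℕ → Set W1, ∀ n m, A n m = A' (Nat.pair n m) :=
    ⟨fun n m => A' (Nat.pair n m), fun _ _ => rfl⟩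
  have hA : ∀ n m, a1 ⊓ c n m = a1 ⊓ h (A n m) := by
    intro n m
    rw [hAd]
    simpa using hA' (Nat.pair n m)
  have hAc : ∀ n m, a1 ⊓ (c n m)ᶜ = a1 ⊓ h (A n m)ᶜ := by
    intro n m
    rw [H.compl, ← _root_.sdiff_eq, ← _root_.sdiff_eq, ← sdiff_inf_self_left, hA,
      sdiff_inf_self_left]
  obtain ⟨C, hC, htopC, hB0⟩ := hGn hPG B h H f hf B0 hS
    (fun d => {w | ∃ k, (∀ n ∈ w, k ≤ n → ∀ m ∈ w, n < m → d ∈ A n m) ∨
      (∀ n ∈ w, k ≤ n → ∀ m ∈ w, n < m → ¬ d ∈ A n m)}) (fun d => hR2 (fun n m => d ∈ A n m))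
  have hinf : h {d | (Tr f C d).Infinite} = ⊤ := by
    apply top_le_iff.1
    rw [← htopC]
    exact hmono _ _ (fun d hd => hd.2)
  obtain ⟨P, hP⟩ : ∃ P : ℕ → Set W1, ∀ k, P k = {d | ∀ n ∈ Tr f C d, k ≤ n → ∀ m ∈ Tr f C d,
      n < m → d ∈ A n m} := ⟨_, fun _ => rfl⟩
  obtain ⟨N, hN⟩ : ∃ N : ℕ → Set W1, ∀ k, N k = {d | ∀ n ∈ Tr f C d, k ≤ n → ∀ m ∈ Tr f C d,
      n < m → ¬ d ∈ A n m} := ⟨_, fun _ => rfl⟩
  have hcov : h (⋃ k, (P k ∪ N k)) = ⊤ := by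
    apply top_le_iff.1
    rw [← htopC]
    apply hmono
    rintro d ⟨⟨k, hk⟩, -⟩
    rw [mem_iUnion]
    refine ⟨k, ?_⟩
    rcases hk with hk | hk
    · left
      rw [hP]
      exact hk
    · right
      rw [hN]
      exact hk
  obtain ⟨k, hk⟩ := XRa.pick h H _ hcov a1 ha1
  have hk2 : a1 ⊓ h (P k) ≠ ⊥ ∨ a1 ⊓ h (N k) ≠ ⊥ := by
    by_contra hcon
    push Not at hcon
    apply hk
    rw [hun, inf_sup_left, hcon.1, hcon.2, sup_idem]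
  rcases hk2 with hk2 | hk2
  · refine ⟨a1 ⊓ h (P k), inf_le_left.trans ha1a, hk2, C, hC, hinf, hB0, k, Or.inl ?_⟩
    intro n m hn hnm
    have h1 : h (P k) ⊓ h {d | n ∈ Tr f C d ∧ m ∈ Tr f C d} ≤ h (A n m) := by
      rw [← H.inter]
      apply hmono
      rintro d ⟨hd1, hd2, hd3⟩
      rw [hP] at hd1
      exact hd1 n hd2 hn m hd3 hnm
    calc a1 ⊓ h (P k) ⊓ h {d | n ∈ Tr f C d ∧ m ∈ Tr f C d}
        = a1 ⊓ (h (P k) ⊓ h {d | n ∈ Tr f C d ∧ m ∈ Tr f C d}) := inf_assoc _ _ _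
      _ ≤ a1 ⊓ h (A n m) := inf_le_inf_left _ h1
      _ = a1 ⊓ c n m := (hA n m).symm
      _ ≤ c n m := inf_le_right
  · refine ⟨a1 ⊓ h (N k), inf_le_left.trans ha1a, hk2, C, hC, hinf, hB0, k, Or.inr ?_⟩
    intro n m hn hnm
    have h1 : h (N k) ⊓ h {d | n ∈ Tr f C d ∧ m ∈ Tr f C d} ≤ h (A n m)ᶜ := by
      rw [← H.inter]
      apply hmono
      rintro d ⟨hd1, hd2, hd3⟩
      rw [hN] at hd1
      exact hd1 n hd2 hn m hd3 hnm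
    calc a1 ⊓ h (N k) ⊓ h {d | n ∈ Tr f C d ∧ m ∈ Tr f C d}
        = a1 ⊓ (h (N k) ⊓ h {d | n ∈ Tr f C d ∧ m ∈ Tr f C d}) := inf_assoc _ _ _
      _ ≤ a1 ⊓ h (A n m)ᶜ := inf_le_inf_left _ h1
      _ = a1 ⊓ (c n m)ᶜ := (hAc n m).symm
      _ ≤ (c n m)ᶜ := inf_le_right

end MP33c03aG
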