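import Pool.Agent.Work.MP_33c03a_lc.G.Stmts

/-!
Block G (MP_33c03a_lc), item Sp: sparse sets of natural numbers.
-/

open Set

namespace MP33c03aG

open MP33c03aR

namespace XSp

/-- the sequence of the elements chosen with the function `nx` -/
def sq (F nx : ℕ → ℕ) : ℕ → ℕ
  | 0 => nx 0
  | i + 1 => nx (max (sq F nx i) (F (sq F nx i)))

theorem sq_step (F nx : ℕ → ℕ) (h : ∀ N, N < nx N) (i : ℕ) :
    sq F nx i < sq F nx (i + 1) ∧ F (sq F nx i) ≤ sq F nx (i + 1) := by
  have h1 : max (sq F nx i) (F (sq F nx i)) < sq F nx (i + 1) := h _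
  exact ⟨lt_of_le_of_lt (le_max_left _ _) h1, (lt_of_le_of_lt (le_max_right _ _) h1).le⟩

theorem sq_mem (F nx : ℕ → ℕ) (w : Set ℕ) (h : ∀ N, nx N ∈ w) (i : ℕ) : sq F nx i ∈ w := by
  cases i with
  | zero => exact h 0
  | succ i => exact h _

end XSp

open XSp

theorem prfSp : StSp := by
  intro F
  refine ⟨?_, ?_⟩
  · rintro w ⟨k, hk⟩ w' - hfin
    obtain ⟨b, hb⟩ := hfin.bddAbove
    have hmem : ∀ n ∈ w', b + 1 ≤ n → n ∈ w := by
      intro n hn hbn
      by_contra hw
      have h1 : n ≤ b := hb ⟨hn, hw⟩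
      omega
    refine ⟨max k (b + 1), fun n hn hkn m hm hnm => ?_⟩
    have h1 : k ≤ n := (le_max_left _ _).trans hkn
    have h2 : b + 1 ≤ n := (le_max_right _ _).trans hkn
    exact hk n (hmem n hn h2) h1 m (hmem m hm (by omega)) hnm
  · intro w hw
    have hex : ∀ N : ℕ, ∃ n ∈ w, N < n := fun N => hw.exists_gt N
    choose nx hnx hlt using hex
    have hmono : StrictMono (sq F nx) := strictMono_nat_of_lt_succ fun i => (sq_step F nx hlt i).1
    refine ⟨range (sq F nx), ⟨0, ?_⟩, infinite_range_of_injective hmono.injective, ?_⟩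
    · rintro _ ⟨i, rfl⟩ - _ ⟨j, rfl⟩ hij
      have h1 : i < j := hmono.lt_iff_lt.1 hij
      exact (sq_step F nx hlt i).2.trans (hmono.monotone h1)
    · rintro _ ⟨i, rfl⟩
      exact sq_mem F nx w hnx i

end MP33c03aG
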