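import Pool.Agent.Work.MP_33c03a_lc.G.Stmts

/-!
# MP_33c03a_lc, block G, item Ti: traces are infinite
-/

set_option autoImplicit false

open Set

namespace MP33c03aG

open MP33c03aR

theorem prfTi : StTi := by
  intro W _ g d hL A hA hc hfin
  obtain ⟨n, hn⟩ := hfin.bddAbove
  obtain ⟨y, hy, hy2⟩ := hL.fib n
  obtain ⟨x, hx, hxy⟩ := hc y hy
  exact absurd (hy2 x (hA x hx) (hn (mem_image_of_mem g hx))) (not_le.2 hxy)

end MP33c03aG
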