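import Pool.Agent.Work.MP_33c03a_lc.G.Stmts
import Pool.Agent.Work.MP_33c03a_lc.I_Nul
import Pool.Agent.Work.MP_33c03a_lc.I_Sig
import Pool.Agent.Work.MP_33c03a_lc.I_Fst
import Pool.Agent.Work.MP_33c03a_lc.I_W1

/-! Item Un: dense sets of finite sequences. -/

open Set

namespace MP33c03aG

open MP33c03aR

universe u

theorem prfUn (hMs : StMs.{u}) : StUn.{u} := by
  classical
  intro B _ h B0 H hc hs z hz hd k
  obtain ⟨m1, mU, mI, mcap, mbot, mtop, mdiag⟩ := hMs B h B0 H hc hs
  obtain ⟨n1, n2, n3, n4, n5, n6⟩ := pr_Nul.{u} W1 B h H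
  have sig := (pr_Sig pr_Nul pr_Fst : StSig.{u}) W1 B h pr_W1 H
  constructor
  · intro t
    have key : {d | ∃ n ≥ k, n ≤ z d n ∧ z d n < t.length ∧
        ∀ i, n ≤ i → i ≤ z d n → t[i]? = some false} =
        ⋃ n : ℕ, ⋃ m : ℕ, (if (k ≤ n ∧ n ≤ m ∧ m < t.length ∧
          ∀ i, n ≤ i → i ≤ m → t[i]? = some false) then {d | z d n = m} else ∅) := by
      ext d
      simp only [Set.mem_ofPred_eq, mem_iUnion]
      constructor
      · rintro ⟨n, hn, h1, h2, h3⟩
        refine ⟨n, z d n, ?_⟩
        rw [if_pos ⟨hn, h1, h2, h3⟩]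
        rfl
      · rintro ⟨n, m, hm⟩
        by_cases hcond : (k ≤ n ∧ n ≤ m ∧ m < t.length ∧
          ∀ i, n ≤ i → i ≤ m → t[i]? = some false)
        · rw [if_pos hcond] at hm
          have hm' : z d n = m := hm
          obtain ⟨c1, c2, c3, c4⟩ := hcond
          refine ⟨n, c1, ?_, ?_, ?_⟩
          · rw [hm']; exact c2
          · rw [hm']; exact c3
          · rw [hm']; exact c4
        · rw [if_neg hcond] at hm
          exact absurd hm (notMem_empty d)
    rw [key]
    refine mU _ fun n => mU _ fun m => ?_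
    split_ifs
    · exact hz n m
    · exact mbot
  · intro s
    obtain ⟨e, he⟩ := exists_surjective_nat (List Bool)
    refine top_le_iff.1 ?_
    have hsub : {d | ∃ k, ∀ n ≥ k, n ≤ z d n} ⊆ ⋃ i : ℕ, (if s <+: e i then
        {d | ∃ n ≥ k, n ≤ z d n ∧ z d n < (e i).length ∧
          ∀ j, n ≤ j → j ≤ z d n → (e i)[j]? = some false} else ∅) := by
      rintro d ⟨k', hk'⟩
      have hn := hk' (max k' (max k s.length)) (le_max_left _ _)
      have hnk : k ≤ max k' (max k s.length) := le_max_of_le_right (le_max_left _ _)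
      have hns : s.length ≤ max k' (max k s.length) := le_max_of_le_right (le_max_right _ _)
      generalize max k' (max k s.length) = n at hn hnk hns
      obtain ⟨i, hi⟩ := he (s ++ List.replicate (z d n + 1 - s.length) false)
      rw [mem_iUnion]
      refine ⟨i, ?_⟩
      rw [hi, if_pos (List.prefix_append _ _)]
      refine ⟨n, hnk, hn, ?_, ?_⟩
      · rw [List.length_append, List.length_replicate]
        omega
      · intro j hj1 hj2
        rw [List.getElem?_append_right (by omega), List.getElem?_replicate, if_pos (by omega)]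
    calc (⊤ : B) = h {d | ∃ k, ∀ n ≥ k, n ≤ z d n} := hd.symm
      _ ≤ _ := n2 _ _ hsub
      _ = ⨆ i, _ := sig _
      _ ≤ _ := by
        refine iSup_le fun i => ?_
        split_ifs with hsi
        · exact le_iSup₂_of_le (e i) hsi le_rfl
        · rw [n1]
          exact bot_le

end MP33c03aG
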