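import Pool.Agent.Work.MP_33c03a_lc.G.Stmts

/-!
Block G (MP_33c03a_lc), item Zz: the second element of `T d` at or above `n`, measurability.
-/

set_option autoImplicit false

open Set

namespace MP33c03aG

open MP33c03aR

universe u

namespace XZz

/-- The elements of `T` which have an element of `T` below, at or above `n`. -/
def SS (T : Set ℕ) (n : ℕ) : Set ℕ := {b | b ∈ T ∧ ∃ a ∈ T, n ≤ a ∧ a < b}

theorem zero_notMem (T : Set ℕ) (n : ℕ) : 0 ∉ SS T n := by
  rintro ⟨-, a, -, -, h⟩
  omega

theorem nonempty (T : Set ℕ) (hT : T.Infinite) (n : ℕ) : (SS T n).Nonempty := by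
  obtain ⟨a, ha, hna⟩ := hT.exists_gt n
  obtain ⟨b, hb, hab⟩ := hT.exists_gt a
  exact ⟨b, hb, a, ha, hna.le, hab⟩

theorem eq_zero (T : Set ℕ) (n : ℕ) : sInf (SS T n) = 0 ↔ ∀ b, b ∉ SS T n := by
  rw [Nat.sInf_eq_zero]
  constructor
  · rintro (h0 | h0) b hb
    · exact zero_notMem T n h0
    · rw [h0] at hb
      exact hb
  · intro h0
    exact Or.inr (Set.eq_empty_iff_forall_notMem.mpr h0)

theorem eq_pos (T : Set ℕ) (n m : ℕ) (hm : 0 < m) :
    sInf (SS T n) = m ↔ m ∈ SS T n ∧ ∀ m' < m, m' ∉ SS T n := by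
  constructor
  · intro h0
    have hne : (SS T n).Nonempty := by
      rcases Set.eq_empty_or_nonempty (SS T n) with h1 | h1
      · rw [h1, Nat.sInf_empty] at h0
        omega
      · exact h1
    refine ⟨?_, fun m' hm' => ?_⟩
    · rw [← h0]
      exact Nat.sInf_mem hne
    · rw [← h0] at hm'
      exact Nat.notMem_of_lt_sInf hm'
  · rintro ⟨h1, h2⟩
    have h3 : sInf (SS T n) ≤ m := Nat.sInf_le h1
    rcases lt_or_eq_of_le h3 with h4 | h4
    · exact absurd (Nat.sInf_mem ⟨m, h1⟩) (h2 _ h4)
    · exact h4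

end XZz

theorem prfZz : StMs.{u} → StZz.{u} := by
  classical
  intro hMs B _ h B0 hNH hc hs T hT
  obtain ⟨mc, mU, mI, mb, me, mu, -⟩ := hMs B h B0 hNH hc hs
  have hS : ∀ n b, h {d | b ∈ XZz.SS (T d) n} ∈ B0 := by
    intro n b
    have e : {d | b ∈ XZz.SS (T d) n} =
        {d | b ∈ T d} ∩ ⋃ a : ℕ, (if n ≤ a ∧ a < b then {d | a ∈ T d} else ∅) := by
      ext d
      simp only [mem_ofPred_eq, mem_inter_iff, mem_iUnion]
      constructor
      · rintro ⟨hb, a, ha, hna, hab⟩
        refine ⟨hb, a, ?_⟩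
        rw [if_pos ⟨hna, hab⟩]
        exact ha
      · rintro ⟨hb, a, ha⟩
        by_cases h1 : n ≤ a ∧ a < b
        · rw [if_pos h1] at ha
          exact ⟨hb, a, ha, h1.1, h1.2⟩
        · rw [if_neg h1] at ha
          exact absurd ha (Set.notMem_empty d)
    rw [e]
    refine (mb _ _ (hT b) (mU _ fun a => ?_)).1
    by_cases h1 : n ≤ a ∧ a < b
    · rw [if_pos h1]
      exact hT a
    · rw [if_neg h1]
      exact me
  have hN : ∀ n b, h {d | b ∉ XZz.SS (T d) n} ∈ B0 := fun n b => mc _ (hS n b)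
  refine ⟨fun d n => sInf (XZz.SS (T d) n), ?_, ?_⟩
  · intro n m
    rcases Nat.eq_zero_or_pos m with hm | hm
    · subst hm
      have e : {d | sInf (XZz.SS (T d) n) = 0} = ⋂ b : ℕ, {d | b ∉ XZz.SS (T d) n} := by
        ext d
        simp only [mem_ofPred_eq, mem_iInter]
        exact XZz.eq_zero (T d) n
      rw [e]
      exact mI _ fun b => hN n b
    · have e : {d | sInf (XZz.SS (T d) n) = m} = {d | m ∈ XZz.SS (T d) n} ∩
          ⋂ m' : ℕ, (if m' < m then {d | m' ∉ XZz.SS (T d) n} else univ) := by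
        ext d
        simp only [mem_ofPred_eq, mem_inter_iff, mem_iInter]
        rw [XZz.eq_pos (T d) n m hm]
        refine and_congr_right fun _ => ?_
        constructor
        · intro h1 m'
          by_cases h2 : m' < m
          · rw [if_pos h2]
            exact h1 m' h2
          · rw [if_neg h2]
            exact Set.mem_univ d
        · intro h1 m' h2
          have h3 := h1 m'
          rw [if_pos h2] at h3
          exact h3
      rw [e]
      refine (mb _ _ (hS n m) (mI _ fun m' => ?_)).1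
      by_cases h2 : m' < m
      · rw [if_pos h2]
        exact hN n m'
      · rw [if_neg h2]
        exact mu
  · intro d hd n
    exact Nat.sInf_mem (XZz.nonempty (T d) hd n)

end MP33c03aG
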