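import Pool.Agent.Work.MP_33c03a_lc.G.Stmts
import Pool.Agent.Work.MP_33c03a_lc.I_Ccl
import Pool.Agent.Work.MP_33c03a_lc.G.I_Op
import Pool.Agent.Work.MP_33c03a_lc.G.I_Fn
import Pool.Agent.Work.MP_33c03a_lc.G.I_Ti
import Pool.Agent.Work.MP_33c03a_lc.G.I_Po
import Pool.Agent.Work.MP_33c03a_lc.G.I_Pg
import Pool.Agent.Work.MP_33c03a_lc.G.I_Ex
import Pool.Agent.Work.MP_33c03a_lc.G.I_Nl
import Pool.Agent.Work.MP_33c03a_lc.G.I_Ms
import Pool.Agent.Work.MP_33c03a_lc.G.I_Gn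
import Pool.Agent.Work.MP_33c03a_lc.G.I_Sp
import Pool.Agent.Work.MP_33c03a_lc.G.I_Zz
import Pool.Agent.Work.MP_33c03a_lc.G.I_Dm
import Pool.Agent.Work.MP_33c03a_lc.G.I_Bd
import Pool.Agent.Work.MP_33c03a_lc.G.I_Un
import Pool.Agent.Work.MP_33c03a_lc.G.I_Co
import Pool.Agent.Work.MP_33c03a_lc.G.I_R2
import Pool.Agent.Work.MP_33c03a_lc.G.I_Ra

/-!
Block G (MP_33c03a_lc, captain helper20): assembly.
-/

open Set

namespace MP33c03aG

open MP33c03aR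

universe u

theorem mrp_pg (h : MRP) : PG := prfPg prfTi pr_Ccl (prfPo prfOp prfFn prfTi h)

theorem fin_Nl : StNl := prfNl prfEx prfTi

theorem fin_Gn : StGn.{u} := prfGn prfMs

theorem fin_Zz : StZz.{u} := prfZz prfMs

theorem fin_Dm : StDm.{u} := prfDm fin_Gn prfSp fin_Zz

theorem fin_Bd : StBd.{u} := prfBd fin_Dm

theorem fin_Co : StCo.{u} := prfCo fin_Dm (prfUn prfMs)

theorem fin_Ra : StRa.{u} := prfRa fin_Gn prfR2

end MP33c03aG
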