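import Pool.Agent.Work.MP_33c03a_lc.G.Stmts
import Pool.Agent.Work.MP_33c03a_lc.I_Clb
import Pool.Agent.Work.MP_33c03a_lc.I_Cnt
import Pool.Agent.Work.MP_33c03a_lc.I_Dia
import Pool.Agent.Work.MP_33c03a_lc.I_Fst
import Pool.Agent.Work.MP_33c03a_lc.I_Nul
import Pool.Agent.Work.MP_33c03a_lc.I_Sig
import Pool.Agent.Work.MP_33c03a_lc.I_W1

/-!
Block G (MP_33c03a_lc), item Gn: genericity.
-/

open Set

namespace MP33c03aG

open MP33c03aR

universe u

namespace XGn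

theorem clb : StClb.{u} :=
  pr_Clb pr_Nul (pr_Cnt pr_Nul pr_Fst (pr_Sig pr_Nul pr_Fst)) pr_Dia

theorem inf_DO {Q : Set (Set ℕ)} (hQ : DO Q) : DO {w | w ∈ Q ∧ w.Infinite} := by
  refine ⟨?_, ?_⟩
  · rintro w ⟨hw, -⟩ w' hi hf
    exact ⟨hQ.1 w hw w' hi hf, hi⟩
  · intro w hw
    obtain ⟨w', h1, h2, h3⟩ := hQ.2 w hw
    exact ⟨w', ⟨h1, h2⟩, h2, h3⟩

end XGn

/-- Item Gn. -/
theorem prfGn (hMs : StMs.{u}) : StGn.{u} := by
  intro hPG B _ h hh f hf B0 hS Q hQ
  obtain ⟨C, hC, hC2⟩ := hPG f (fun d => {w | w ∈ Q d ∧ w.Infinite}) hf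
    (fun d => XGn.inf_DO (hQ d))
  obtain ⟨-, -, -, -, hemp, -, hdiag⟩ := hMs B h B0 hh hS.compl hS.sup
  refine ⟨C, hC, ?_, ?_⟩
  · obtain ⟨-, hmono, -⟩ := pr_Nul W1 B h hh
    have h1 := (XGn.clb W1 B h pr_W1 hh C hC).2
    refine top_le_iff.1 ?_
    rw [← h1]
    exact hmono _ _ fun d hd => hC2 d hd
  · intro n
    have h1 := hdiag (fun x => {d | x ∈ C ∧ f d x = n}) ?_
    · have h2 : {d | n ∈ Tr f C d} = {d | ∃ x < d, d ∈ {d : W1 | x ∈ C ∧ f d x = n}} := by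
        ext d
        constructor
        · rintro ⟨x, hx, hxd, he⟩
          exact ⟨x, hxd, hx, he⟩
        · rintro ⟨x, hxd, hx, he⟩
          exact ⟨x, hx, hxd, he⟩
      rw [h2]
      exact h1
    · intro x
      by_cases hx : x ∈ C
      · have h3 : {d | x < d ∧ d ∈ {d : W1 | x ∈ C ∧ f d x = n}} = {d | x < d ∧ f d x = n} := by
          ext d
          constructor
          · rintro ⟨h4, -, h5⟩
            exact ⟨h4, h5⟩
          · rintro ⟨h4, h5⟩
            exact ⟨h4, hx, h5⟩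
        rw [h3]
        exact hS.gen x n
      · have h3 : {d | x < d ∧ d ∈ {d : W1 | x ∈ C ∧ f d x = n}} = ∅ := by
          ext d
          constructor
          · rintro ⟨-, h5, -⟩
            exact absurd h5 hx
          · intro h5
            exact absurd h5 (notMem_empty _)
        rw [h3]
        exact hemp

end MP33c03aG
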