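import Pool.Agent.Work.MP_33c03a_lc.Defs

/-!
Block G (MP_33c03a_lc, captain helper20): under MRP the traces of the clubs on a ladder form a
filter base which is generic for the dense open families of subsets of `ω`.
Note 4891 in the table `notes`.  Definitions and statements of the items; every docstring is a
complete proof.  Every item file proves `prfXx : StYy → ... → StXx`, the items used are hypotheses.
Available without hypotheses (import Pool.Agent.Work.MP_33c03a_lc.Final): `pr_Nul all_Sig all_Cnt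
all_Dia all_Clb all_Reg`, `pr_Lub pr_Ccl pr_W1`, and the other items of block R.
-/

open Set

namespace MP33c03aG

open MP33c03aR

universe u

/-- Dense open families of infinite sets of natural numbers: closed under infinite almost-subsets,
and every infinite set has an infinite subset in the family. -/
def DO (Q : Set (Set ℕ)) : Prop :=
  (∀ w ∈ Q, ∀ w' : Set ℕ, w'.Infinite → (w' \ w).Finite → w' ∈ Q) ∧
    ∀ w : Set ℕ, w.Infinite → ∃ w' ∈ Q, w'.Infinite ∧ w' ⊆ w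

/-- `g` is a continuous map from `[0,d)` to `ω` with bounded fibres.  (Example: `g x` is the number
of elements of a cofinal subset of `d` of type `ω` which are less than `x`.) -/
structure Lad {W : Type 1} [LinearOrder W] (g : W → ℕ) (d : W) : Prop where
  cont : ∀ x < d, (∃ y, y < x) → ∃ y < x, ∀ z, y < z → z ≤ x → g z = g x
  fib : ∀ n, ∃ y < d, ∀ z < d, g z ≤ n → z ≤ y

/-- The trace of `C` on `f d`. -/
def Tr (f : W1 → W1 → ℕ) (C : Set W1) (d : W1) : Set ℕ := {n | ∃ x ∈ C, x < d ∧ f d x = n}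

/-- Ladder systems on `ω₁`. -/
def Ladders (f : W1 → W1 → ℕ) : Prop := ∀ d, LimPt univ d → Lad (f d) d

/-- The combinatorial principle, on ordinals. -/
def PGo : Prop :=
  ∀ (f : Ordinal.{0} → Ordinal.{0} → ℕ) (Q : Ordinal.{0} → Set (Set ℕ)),
    (∀ δ < Ordinal.omega 1, Order.IsSuccLimit δ → Lad (f δ) δ) → (∀ δ, DO (Q δ)) →
    ∃ c, Cseq c ∧ ∀ ν < Ordinal.omega 1, Order.IsSuccLimit ν →
      {n | ∃ ξ < ν, f (c ν) (c ξ) = n} ∈ Q (c ν)

/-- The combinatorial principle, on `W1`. -/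
def PG : Prop :=
  ∀ (f : W1 → W1 → ℕ) (Q : W1 → Set (Set ℕ)), Ladders f → (∀ d, DO (Q d)) →
    ∃ C, IsClb C ∧ ∀ d, LimPt C d → Tr f C d ∈ Q d

/-- `B0` is a complete subalgebra containing the values of the name `f`. -/
structure Sub {B : Type u} [CompleteBooleanAlgebra B] (h : Set W1 → B) (f : W1 → W1 → ℕ)
    (B0 : Set B) : Prop where
  compl : ∀ x ∈ B0, xᶜ ∈ B0
  sup : ∀ s ⊆ B0, sSup s ∈ B0
  gen : ∀ x n, h {d | x < d ∧ f d x = n} ∈ B0

/-- Every real of the extension by `B` is represented by a function on `ω₁`: below every condition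
some condition forces that the real `b` is the real represented by `d ↦ {n | d ∈ A n}`. -/
def Full {B : Type u} [CompleteBooleanAlgebra B] (h : Set W1 → B) : Prop :=
  ∀ (b : ℕ → B) (a : B), a ≠ ⊥ → ∃ a' ≤ a, a' ≠ ⊥ ∧ ∃ A : ℕ → Set W1, ∀ n, a' ⊓ b n = a' ⊓ h (A n)

/-- The value of `t ⊆ c`, for a finite sequence `t` and a name `c` of a function from `ω` to 2. -/
def Ini {B : Type u} [CompleteBooleanAlgebra B] (c : ℕ → B) (t : List Bool) : B :=
  ⨅ i : Fin t.length, if t.get i then c i else (c i)ᶜ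

/-- `a` forces that `c` is Cohen generic over the extension by `B0`: `c` meets every dense subset
`U` of the tree of finite sequences with a name in `B0`. -/
def CohenOver {B : Type u} [CompleteBooleanAlgebra B] (B0 : Set B) (a : B) (c : ℕ → B) : Prop :=
  ∀ U : List Bool → B, (∀ s, U s ∈ B0) → (∀ s, ⨆ (t : List Bool) (_ : s <+: t), U t = ⊤) →
    a ≤ ⨆ t, U t ⊓ Ini c t

/-- Item Op (EASY-MEDIUM): openness.  PROOF: as `pr_Opn` (I_Opn.lean).  Let `Y ∈ Sg D δ`, `s` its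
least upper bound.  If there is no `t < s` take `x = ∅`, `N = Y`: a subset `Z` of `Y` has a least
upper bound `s' ≤ s` (`Opn_lub` in I_Opn.lean), so `s' = s`.  Otherwise let `t < s` be as in the
hypothesis; there is `a` with `a.toZFSet ∈ Y`, `t < a`; take `x = {a.toZFSet}`, `N = Y`: if
`x ⊆ Z ⊆ Y`, the least upper bound `s'` of `Z` satisfies `t < a ≤ s' ≤ s`, so `s' ∉ D`. -/
def StOp : Prop := ∀ (D : Set Ordinal.{0}) (δ : Ordinal.{0}), δ < Ordinal.omega 1 →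
  (∀ s < δ, s ∉ D → (∃ t, t < s) → ∃ t < s, ∀ t', t < t' → t' ≤ s → t' ∉ D) → EOpen O1 (Sg D δ)

/-- Item Fn (EASY): PROOF by induction on `x`: if there is no `y < x`, `Iic x = {x}`.  Otherwise
take `y < x` with `g` constant on `(y,x]`; the image of `Iic x` is contained in the union of the
image of `Iic y` and `{g x}`. -/
def StFn : Prop := ∀ (W : Type 1) [LinearOrder W] [WellFoundedLT W] (g : W → ℕ) (d : W),
  (∀ x < d, (∃ y, y < x) → ∃ y < x, ∀ z, y < z → z ≤ x → g z = g x) →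
    ∀ x < d, (g '' Iic x).Finite

/-- Item Ti (EASY): PROOF: if the image is finite it is bounded by some `n`; take `y < d` as in
`fib` for `n`, and `x ∈ A` with `y < x`; then `x < d` and `g x ≤ n`, so `x ≤ y`, contradiction. -/
def StTi : Prop := ∀ (W : Type 1) [LinearOrder W] (g : W → ℕ) (d : W), Lad g d →
  ∀ A : Set W, (∀ x ∈ A, x < d) → (∀ y < d, ∃ x ∈ A, y < x) → (g '' A).Infinite

/-- Item Po (MEDIUM, adapt `pr_Mro`, I_Mro.lean): from MRP to the principle on ordinals.  Use also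
`StHx StHex StCbs StGd StHts StLub StAll StNeg StChm` of block R (all are proved: import
Pool.Agent.Work.MP_33c03a_lc.Final, see `mrp_lm` or the theorems `all_*`, `pr_*` there) and the
items Op, Fn, Ti.
PROOF.  `θ`, `dom`, `dl` as in `pr_Mro`.  For `w : Set ℕ` and an ordinal `δ` let
`E w δ = {s | f δ s ∉ w}`.  For `M ∈ dom` with `δ = dl M` let `Sm M = Sg (E w δ) δ` for a chosen
`w ∈ Q δ` with `MStat O1 M (Sg (E w δ) δ)` if there is one, else `Sm M = {Y | Y ∈ CS O1}`.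
`Sg (E w δ) δ` is open by Op, as `f δ` is continuous below `δ` (`Hgt` gives that `δ` is a limit).
MRP gives a chain `N` with heights `c` (`StHts`), `Hgt (N ξ) (c ξ)`, `dl (N ξ) = c ξ`.
Let `ν < ω₁` be a limit, `δ = c ν`, `T = {n | ∃ ξ < ν, f δ (c ξ) = n}`.  `T` is infinite (Ti with
`A = {c ξ | ξ < ν}`, cofinal in `δ` by `Cseq.cont`).
(a) If `w` was chosen for `N ν`: for `ν₀ < ξ < ν`, `N ξ ∩ O1 ∈ Sg (E w δ) δ` and its least upper
bound is `c ξ`, so `f δ (c ξ) ∈ w`.  For `ξ ≤ ν₀`, `c ξ ≤ c ν₀ < δ`, and `f δ` takes finitely many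
values on `Iic (c ν₀)` (Fn).  So `T \ w` is finite and `T ∈ Q δ` by `DO`.
(b) Otherwise, `T` being infinite, take `w ∈ Q δ` infinite, `w ⊆ T`.  As no `w` works,
`Sg (E w δ) δ` is not stationary for `N ν`, and `StNeg` (for `D = E w δ`) gives `ν₀ < ν` with
`f δ (c ξ) ∉ w` for `ν₀ < ξ < ν`.  So every `n ∈ w ⊆ T` is `f δ (c ξ)` with `ξ ≤ ν₀`, and `w` is
finite by Fn, contradiction. -/
def StPo : Prop := MRP → PGo

/-- Item Pg (MEDIUM, adapt `pr_Lmo`, I_Lmo.lean; uses StTi and `pr_Ccl` of block R): from ordinals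
to `W1`.  PROOF.  Given `f`, `Q` on `W1` let `f' δ t = f ⟨δ,_⟩ ⟨t,_⟩` if `δ, t < ω₁`, else 0, and
`Q' δ = Q ⟨δ,_⟩` if `δ < ω₁`, else `univ` (a dense open family).  `Lad (f' δ) δ` for limit `δ < ω₁`
is immediate from `Lad (f ⟨δ,_⟩) ⟨δ,_⟩` (the points involved are `≤ δ`; `LimPt univ ⟨δ,_⟩` since `δ`
is a limit).  Let `c` be given by `PGo` and `C = {d | ∃ ν < ω₁, IsSuccLimit ν ∧ d.1 = c ν}`, a club
by `pr_Ccl`.  If `d` is a limit point of `C`, `d.1 = c ν` with `LL ν` (`pr_Ccl`), so the set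
`{n | ∃ ξ < ν, f' (c ν) (c ξ) = n}` is in `Q d`.  `Tr f C d` is contained in this set (`c μ < c ν`
gives `μ < ν`) and infinite by Ti (with `A = {x ∈ C | x < d}`; `d` is a limit point of `C`, so of
`univ`), so it is in `Q d` by the first clause of `DO`. -/
def StPg : Prop := PGo → PG

/-- Item Ex (EASY-MEDIUM): there are ladder systems.  PROOF.  For `d` with `LimPt univ d` the set
`Iio d` is countable (`pr_W1.1 d`) and nonempty; let `e : ℕ → W1` enumerate it.  Put `f d x = ` the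
least `n` with `x ≤ e n` for `x < d` (it exists as `x` is in the range of `e`), and 0 for `x ≥ d`.
Fibres: `f d z ≤ n` gives `z ≤ max of e 0, ..., e n`, which is `< d`.  Continuity at `x < d`, not
the least element: let `n = f d x`; for `i < n`, `e i < x`; let `y < x` be at least all the `e i`,
`i < n` (finite induction; if `n = 0` any `y < x`).  For `y < z ≤ x`: `z ≤ e n` and `e i < z` for
`i < n`, so `f d z = n`. -/
def StEx : Prop := ∃ f : W1 → W1 → ℕ, Ladders f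

/-- Item Nl (EASY-MEDIUM, uses StEx StTi): no linked families guess clubs.  PROOF.  Let `f` be a
ladder system (Ex).  For `d` with `LimPt univ d` let `Q d = {w | ∀ A ∈ S d,
¬ ((f d '' (A ∩ Iio d)) \ w).Finite}`, for other `d` let `Q d = univ`.  `Q d` is `DO`: if `w ∈ Q d`
and `w' \ w` is finite, `F \ w' ` finite implies `F \ w` finite, so `w' ∈ Q d`.  Let `w` be infinite
and `w = w1 ∪ w2` a partition in two infinite sets.  If `w1, w2 ∉ Q d`, there are `A1, A2 ∈ S d`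
with `f d '' (Ai ∩ Iio d) \ wi` finite; then `f d '' (A1 ∩ A2 ∩ Iio d)` is finite (it is contained
in the union of the two finite sets, `w1` and `w2` being disjoint), but it is infinite by Ti since
`A1 ∩ A2` is cofinal in `d`.  So `w1 ∈ Q d` or `w2 ∈ Q d`.
`PG` gives a club `C` with `Tr f C d ∈ Q d` for all limit points `d` of `C`.  If `C ∩ Iio d ∈ S d`,
then `f d '' (C ∩ Iio d ∩ Iio d) \ Tr f C d` is empty, contradiction. -/
def StNl : Prop := PG → ∀ S : W1 → Set (Set W1),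
  (∀ d, ∀ A ∈ S d, ∀ A' ∈ S d, ∀ y < d, ∃ x ∈ A ∩ A', y < x ∧ x < d) →
    ∃ C, IsClb C ∧ ∀ d, LimPt C d → C ∩ Iio d ∉ S d

/-- Item Ms (EASY, cf. `pr_Mea`, I_Mea.lean; uses `pr_Nul`, `all_Sig`): the sets with value in `B0`.
PROOF: `h Aᶜ = (h A)ᶜ`; `h (⋃ A n) = ⨆ h (A n)` (`all_Sig`, `pr_W1`) is a supremum of elements of
`B0`; intersections by complements; `h ∅ = ⊥ = sSup ∅`.  The last clause is the axiom `diag` of `NH`
for the sets `{d | d ∈ A x ∧ x < d}`. -/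
def StMs : Prop := ∀ (B : Type u) [CompleteBooleanAlgebra B] (h : Set W1 → B) (B0 : Set B), NH h →
  (∀ x ∈ B0, xᶜ ∈ B0) → (∀ s ⊆ B0, sSup s ∈ B0) →
    (∀ A, h A ∈ B0 → h Aᶜ ∈ B0) ∧ (∀ A : ℕ → Set W1, (∀ n, h (A n) ∈ B0) → h (⋃ n, A n) ∈ B0) ∧
    (∀ A : ℕ → Set W1, (∀ n, h (A n) ∈ B0) → h (⋂ n, A n) ∈ B0) ∧
    (∀ A A', h A ∈ B0 → h A' ∈ B0 → h (A ∩ A') ∈ B0 ∧ h (A ∪ A') ∈ B0) ∧ h ∅ ∈ B0 ∧ h univ ∈ B0 ∧
    ∀ A : W1 → Set W1, (∀ x, h {d | x < d ∧ d ∈ A x} ∈ B0) → h {d | ∃ x < d, d ∈ A x} ∈ B0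

/-- Item Gn (EASY-MEDIUM, uses StMs StTi, `all_Clb`, `pr_W1`): genericity, with the base in the
extension by `B0`.  PROOF: `Q' d = {w ∈ Q d | w infinite}` is again `DO`; let `C` be given by `PG`
for `Q'`.  Almost every `d` is a limit point of `C` (`all_Clb`), and `h` is monotone.
`{d | n ∈ Tr f C d} = {d | ∃ x < d, d ∈ A x}` with `A x = {d | f d x = n}` if `x ∈ C`, `A x = ∅`
otherwise; `h {d | x < d ∧ d ∈ A x}` is in `B0` by `Sub.gen` (or is `h ∅`), so the last clause of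
StMs applies.  (StTi is not needed if `Q'` is used.) -/
def StGn : Prop := PG → ∀ (B : Type u) [CompleteBooleanAlgebra B] (h : Set W1 → B), NH h →
  ∀ f : W1 → W1 → ℕ, Ladders f → ∀ B0 : Set B, Sub h f B0 →
  ∀ Q : W1 → Set (Set ℕ), (∀ d, DO (Q d)) → ∃ C, IsClb C ∧
    h {d | Tr f C d ∈ Q d ∧ (Tr f C d).Infinite} = ⊤ ∧ ∀ n, h {d | n ∈ Tr f C d} ∈ B0

/-- Item Sp (EASY-MEDIUM): sparse sets.  PROOF.  If `w` is in the family with `k`, and `w' \ w` is
finite, take `k' ≥ k` larger than all elements of `w' \ w`.  Given `w` infinite choose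
`a 0 < a 1 < ...` in `w` with `F (a i) ≤ a (i+1)` (recursion: `w` has elements larger than
`max (a i) (F (a i))`); `w' = {a i}`: for `n = a i < m = a j`, `i < j`, `F n ≤ a (i+1) ≤ m`
(`k = 0`). -/
def StSp : Prop := ∀ F : ℕ → ℕ,
  DO {w | ∃ k, ∀ n ∈ w, k ≤ n → ∀ m ∈ w, n < m → F n ≤ m}

/-- Item Zz (EASY-MEDIUM, uses StMs): the second element of `T d` at or above `n`.  PROOF.  Let
`S d n = {b | b ∈ T d ∧ ∃ a ∈ T d, n ≤ a ∧ a < b}` and `z d n = sInf (S d n)`.  If `T d` is infinite,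
`S d n` is nonempty and `z d n ∈ S d n`.  Measurability: `{d | b ∈ S d n} = {d | b ∈ T d} ∩
⋃ a, (if n ≤ a ∧ a < b then {d | a ∈ T d} else ∅)` has value in `B0` (StMs); for `m > 0`,
`z d n = m` iff `m ∈ S d n` and `m' ∉ S d n` for all `m' < m`; for `m = 0`, `z d n = 0` iff `S d n`
is empty (`0 ∉ S d n`), i.e. `∀ b, b ∉ S d n`. -/
def StZz : Prop := ∀ (B : Type u) [CompleteBooleanAlgebra B] (h : Set W1 → B) (B0 : Set B), NH h →
  (∀ x ∈ B0, xᶜ ∈ B0) → (∀ s ⊆ B0, sSup s ∈ B0) → ∀ T : W1 → Set ℕ, (∀ n, h {d | n ∈ T d} ∈ B0) →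
    ∃ z : W1 → ℕ → ℕ, (∀ n m, h {d | z d n = m} ∈ B0) ∧
      ∀ d, (T d).Infinite → ∀ n, z d n ∈ T d ∧ ∃ a ∈ T d, n ≤ a ∧ a < z d n

/-- Item Dm (EASY-MEDIUM, uses StGn StSp StZz): the reals of `M₀` are dominated by the extension by
`B0`.  PROOF.  Let `G d n` be the maximum of `F d i`, `i ≤ n`, monotone in `n`.
Apply StGn with `Q d` = the family of StSp for `G d`, and StZz to `T d = Tr f C d`.  If
`Tr f C d` is infinite and in the family, with `k`, then for `n ≥ k` there is `a ∈ T d`,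
`n ≤ a < z d n ∈ T d`, so `F d n ≤ G d n ≤ G d a ≤ z d n`. -/
def StDm : Prop := PG → ∀ (B : Type u) [CompleteBooleanAlgebra B] (h : Set W1 → B), NH h →
  ∀ f : W1 → W1 → ℕ, Ladders f → ∀ B0 : Set B, Sub h f B0 → ∀ F : W1 → ℕ → ℕ,
    ∃ z : W1 → ℕ → ℕ, (∀ n m, h {d | z d n = m} ∈ B0) ∧ h {d | ∃ k, ∀ n ≥ k, F d n ≤ z d n} = ⊤

/-- Item Bd (MEDIUM, uses StDm, `pr_Nul`, `all_Sig`, `pr_W1`): if `h` is full, `B` is
`ω^ω`-bounding over `B0`.  PROOF.  Let `a ≠ ⊥`.  Fullness for `b (Nat.pair n m) = x n m` gives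
`a1 ≤ a`, `a1 ≠ ⊥` and `A n m` with `a1 ⊓ x n m = a1 ⊓ h (A n m)`.  Let `F d n` be the least `m`
with `d ∈ A n m` if there is one, else 0; `z` from StDm.  `⊤ = ⨆ k, h {d | ∀ n ≥ k, F d n ≤ z d n}`
(`all_Sig`), so for some `k`, `a' = a1 ⊓ h {d | ∀ n ≥ k, F d n ≤ z d n} ≠ ⊥`.  Let `n ≥ k`.
`a1 = a1 ⊓ ⨆ m, x n m = ⨆ m, a1 ⊓ h (A n m) ≤ h {d | ∃ m, d ∈ A n m}`, so
`a' ≤ h {d | ∃ m, d ∈ A n m ∧ m ≤ z d n} = ⨆ m, h (A n m ∩ {d | m ≤ z d n})` (take `m = F d n`),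
and `a' ≤ ⨆ m, a1 ⊓ h (A n m) ⊓ h {d | m ≤ z d n} ≤ ⨆ m, x n m ⊓ h {d | m ≤ z d n}`. -/
def StBd : Prop := PG → ∀ (B : Type u) [CompleteBooleanAlgebra B] (h : Set W1 → B), NH h →
  Full h → ∀ f : W1 → W1 → ℕ, Ladders f → ∀ B0 : Set B, Sub h f B0 →
  ∀ x : ℕ → ℕ → B, (∀ n, ⨆ m, x n m = ⊤) → ∀ a : B, a ≠ ⊥ → ∃ a' ≤ a, a' ≠ ⊥ ∧
    ∃ z : W1 → ℕ → ℕ, (∀ n m, h {d | z d n = m} ∈ B0) ∧
      ∃ k, ∀ n ≥ k, a' ≤ ⨆ m, x n m ⊓ h {d | m ≤ z d n}

/-- Item Un (EASY, uses StMs, `pr_Nul`, `all_Sig`, `pr_W1`): the dense sets used against a Cohen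
real.  `U t` is the value of: for some `n ≥ k` with `n ≤ z n < |t|`, `t` is 0 on `[n, z n]`.
PROOF.  Measurability: `{d | ∃ n ≥ k, ...} = ⋃ n, ⋃ m, (if k ≤ n ∧ n ≤ m ∧ m < |t| ∧ t is 0 on
[n,m] then {d | z d n = m} else ∅)`, StMs.  Density: let `s` be given.  For almost every `d` there is
`n ≥ max k |s|` with `n ≤ z d n` (hypothesis); let `m = z d n` and
`t = s ++ replicate (m + 1 - |s|) false`: then `s <+: t`, `|t| = m + 1 > m`, and `t` is 0 on
`[n,m]` since `|s| ≤ n`.  So `⊤ = h (⋃ t, {d | s <+: t and d is in the set of t})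
= ⨆ t, ...` (`List Bool` is countable: `all_Sig` with an enumeration of the lists). -/
def StUn : Prop := ∀ (B : Type u) [CompleteBooleanAlgebra B] (h : Set W1 → B) (B0 : Set B), NH h →
  (∀ x ∈ B0, xᶜ ∈ B0) → (∀ s ⊆ B0, sSup s ∈ B0) → ∀ z : W1 → ℕ → ℕ,
  (∀ n m, h {d | z d n = m} ∈ B0) → h {d | ∃ k, ∀ n ≥ k, n ≤ z d n} = ⊤ → ∀ k : ℕ,
    (∀ t : List Bool, h {d | ∃ n ≥ k, n ≤ z d n ∧ z d n < t.length ∧
      ∀ i, n ≤ i → i ≤ z d n → t[i]? = some false} ∈ B0) ∧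
    ∀ s : List Bool, ⨆ (t : List Bool) (_ : s <+: t), h {d | ∃ n ≥ k, n ≤ z d n ∧
      z d n < t.length ∧ ∀ i, n ≤ i → i ≤ z d n → t[i]? = some false} = ⊤

/-- Item Co (MEDIUM, uses StDm StUn, `pr_Nul`, `all_Sig`, `pr_W1`): if `h` is full, there are no
Cohen reals over `B0`.  PROOF.  Suppose `a ≠ ⊥`.  Fullness for `c` gives `a' ≤ a`, `a' ≠ ⊥`, `A` with
`a' ⊓ c n = a' ⊓ h (A n)`, hence also `a' ⊓ (c n)ᶜ = a' ⊓ h (A n)ᶜ`.  Let `F d n` be the least
`m ≥ n` with `d ∈ A m` if there is one, else `n`; so `n ≤ F d n`.  Let `z` be given by StDm; then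
almost everywhere `n ≤ F d n ≤ z d n` for all large `n`.  Fix `k`.
(a) StUn gives the dense set `U t = h (E k t)` with `E k t = {d | ∃ n ≥ k, ...}`; `CohenOver` gives
`a' ≤ ⨆ t, U t ⊓ Ini c t`.  For each `t`, `a' ⊓ U t ⊓ Ini c t ≤ h (E k)`, where
`E k = {d | ∃ n ≥ k, n ≤ z d n ∧ ∀ i, n ≤ i → i ≤ z d n → d ∉ A i}`: indeed `a' ⊓ Ini c t ≤
⨅ over i < |t| with t i = false of (h (A i))ᶜ = h {d | ∀ i < |t|, t i = false → d ∉ A i}` (finite
or countable intersection).  So `a' ≤ h (E k)`.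
(b) `V t = ⊤` if `∃ i ≥ k, i < |t|` with `t i = true`, else `⊥` (both in `B0`), is dense; so
`a' ≤ ⨆ over these t of Ini c t`, and `a' ⊓ Ini c t ≤ h (A i)`: `a' ≤ h {d | ∃ i ≥ k, d ∈ A i}`.
By sigma-additivity `a' ≤ h {d | ∀ k, d ∈ E k ∧ ∃ i ≥ k, d ∈ A i}`.  For such `d` there are
arbitrarily large `n` with `n ≤ z d n` and `d ∉ A i` for `i ∈ [n, z d n]`, while `F d n` is an
element `i ≥ n` with `d ∈ A i`, so `F d n > z d n`.  Such `d` are not in the set of measure one of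
StDm, so `a' ≤ ⊥`, contradiction. -/
def StCo : Prop := PG → ∀ (B : Type u) [CompleteBooleanAlgebra B] (h : Set W1 → B), NH h →
  Full h → ∀ f : W1 → W1 → ℕ, Ladders f → ∀ B0 : Set B, Sub h f B0 →
  ∀ (c : ℕ → B) (a : B), CohenOver B0 a c → a = ⊥

end MP33c03aG
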