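import Pool.Agent.Work.MP_33c03a_lc.G.Stmts

/-!
Block G (MP_33c03a_lc, captain helper20), two more items: if every real of the extension by `B` is
represented by a function on `ω₁`, the traces of the clubs generate a Ramsey ultrafilter of the
extension by `B`.
-/

open Set

namespace MP33c03aG

open MP33c03aR

universe u

/-- Item R2 (MEDIUM): the sets which are homogeneous up to a finite set form a dense open family
(Ramsey's theorem for pairs).  PROOF.  Open: if `w` is in the family with `k` and `w' \ w` is finite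
take `k' ≥ k` larger than all elements of `w' \ w`.  Dense: let `w` be infinite.  Let `U` be an
ultrafilter on `ℕ` with `w ∈ U` which contains no finite set (`Ultrafilter.of (cofinite ⊓ 𝓟 w)`,
this filter is `NeBot` as `w` is infinite).  For every `n`, `{m | χ n m} ∈ U` or its complement is;
the set `P = {n | {m | χ n m} ∈ U}` or its complement is in `U`; by symmetry let `P ∈ U` (in the
other case replace `χ` by its negation).  Choose recursively `a 0 < a 1 < ...` in `w ∩ P` with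
`χ (a i) (a j)` for `i < j`: given `a 0, ..., a (j-1)` in `w ∩ P` the set
`w ∩ P ∩ {m | a (j-1) < m} ∩ ⋂ i < j, {m | χ (a i) m}` is in `U`, so nonempty.
`w' = {a i}` is infinite, contained in `w` and homogeneous with `k = 0`. -/
def StR2 : Prop := ∀ χ : ℕ → ℕ → Prop,
  DO {w | ∃ k, (∀ n ∈ w, k ≤ n → ∀ m ∈ w, n < m → χ n m) ∨
    (∀ n ∈ w, k ≤ n → ∀ m ∈ w, n < m → ¬ χ n m)}

/-- Item Ra (MEDIUM, uses StGn StR2, `pr_Nul`, `all_Sig`, `pr_W1`): for every name `c` of a colouring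
of pairs, densely some trace is homogeneous up to a finite set.  PROOF.  Let `a ≠ ⊥`.  Fullness for
`b (Nat.pair n m) = c n m` gives `a1 ≤ a`, `a1 ≠ ⊥`, `A n m` with `a1 ⊓ c n m = a1 ⊓ h (A n m)`, hence
also `a1 ⊓ (c n m)ᶜ = a1 ⊓ h (A n m)ᶜ`.  Apply StGn with `Q d` = the family of StR2 for
`χ n m := d ∈ A n m`.  `Q d = ⋃ k, (P k ∪ N k)` with `P k` = homogeneous from `k` on with colour 1,
`N k` with colour 0, so by `all_Sig` there is `k` such that `a' = a1 ⊓ h {d | Tr f C d ∈ P k} ≠ ⊥` or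
`a' = a1 ⊓ h {d | Tr f C d ∈ N k} ≠ ⊥`.  In the first case, for `k ≤ n < m`:
`{d | Tr f C d ∈ P k} ∩ {d | n ∈ Tr f C d ∧ m ∈ Tr f C d} ⊆ A n m`, so
`a' ⊓ h {d | n ∈ Tr f C d ∧ m ∈ Tr f C d} ≤ a1 ⊓ h (A n m) ≤ c n m`.  The second case is similar. -/
def StRa : Prop := PG → ∀ (B : Type u) [CompleteBooleanAlgebra B] (h : Set W1 → B), NH h →
  Full h → ∀ f : W1 → W1 → ℕ, Ladders f → ∀ B0 : Set B, Sub h f B0 →
  ∀ (c : ℕ → ℕ → B) (a : B), a ≠ ⊥ → ∃ a' ≤ a, a' ≠ ⊥ ∧ ∃ C, IsClb C ∧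
    h {d | (Tr f C d).Infinite} = ⊤ ∧ (∀ n, h {d | n ∈ Tr f C d} ∈ B0) ∧ ∃ k,
      (∀ n m, k ≤ n → n < m → a' ⊓ h {d | n ∈ Tr f C d ∧ m ∈ Tr f C d} ≤ c n m) ∨
      (∀ n m, k ≤ n → n < m → a' ⊓ h {d | n ∈ Tr f C d ∧ m ∈ Tr f C d} ≤ (c n m)ᶜ)

end MP33c03aG
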